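import Mathlib

/-!
# Circulant graphs with monophonic position number two and diameter two

For `n ≥ 11` there is a circulant graph of order `n` with monophonic position number `2` and
diameter `2` if and only if `n ≠ 15`.
-/

namespace Pool.Agent.Results.MP_1f00fa_co.AllOrdersExceptFifteen

open SimpleGraph

/-- `x`, `y`, `z` lie on a common monophonic (i.e. induced) path of `G`: there is an induced
copy of a path graph in `G` which contains all three. -/
def OnInducedPath {V : Type*} (G : SimpleGraph V) (x y z : V) : Prop :=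
  ∃ (m : ℕ) (p : pathGraph m ↪g G), x ∈ Set.range p ∧ y ∈ Set.range p ∧ z ∈ Set.range p

/-- `S` is a monophonic position set of `G`: no three distinct vertices of `S` lie on a common
monophonic path. -/
def IsMPSet {V : Type*} (G : SimpleGraph V) (S : Finset V) : Prop :=
  ∀ x ∈ S, ∀ y ∈ S, ∀ z ∈ S, x ≠ y → y ≠ z → x ≠ z → ¬ OnInducedPath G x y z

/-- The monophonic position number of a finite graph. -/
noncomputable def mp {V : Type*} (G : SimpleGraph V) : ℕ :=
  sSup {m | ∃ S : Finset V, IsMPSet G S ∧ S.card = m}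

section General

variable {V : Type*} {G : SimpleGraph V}

theorem OnInducedPath.swap12 {x y z : V} (h : OnInducedPath G x y z) : OnInducedPath G y x z := by
  obtain ⟨m, p, h1, h2, h3⟩ := h
  exact ⟨m, p, h2, h1, h3⟩

theorem OnInducedPath.swap23 {x y z : V} (h : OnInducedPath G x y z) : OnInducedPath G x z y := by
  obtain ⟨m, p, h1, h2, h3⟩ := h
  exact ⟨m, p, h1, h3, h2⟩

/-- Three pairwise adjacent vertices are never on a common induced path. -/
theorem not_onInducedPath_triangle {x y z : V} (hxy : G.Adj x y) (hyz : G.Adj y z)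
    (hxz : G.Adj x z) : ¬ OnInducedPath G x y z := by
  rintro ⟨m, p, ⟨i, rfl⟩, ⟨j, rfl⟩, ⟨k, rfl⟩⟩
  rw [p.map_adj_iff, pathGraph_adj] at hxy hyz hxz
  omega

/-- Three distinct vertices with the same neighbourhood are never on a common induced path. -/
theorem not_onInducedPath_twins {x y z : V} (hxy : x ≠ y) (hyz : y ≠ z) (hxz : x ≠ z)
    (h1 : ∀ v, G.Adj v x ↔ G.Adj v y) (h2 : ∀ v, G.Adj v x ↔ G.Adj v z) :
    ¬ OnInducedPath G x y z := by
  rintro ⟨m, p, ⟨i, rfl⟩, ⟨j, rfl⟩, ⟨k, rfl⟩⟩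
  have hij : i.val ≠ j.val := fun h => hxy (by rw [Fin.ext h])
  have hjk : j.val ≠ k.val := fun h => hyz (by rw [Fin.ext h])
  have hik : i.val ≠ k.val := fun h => hxz (by rw [Fin.ext h])
  have key : ∀ l : Fin m, ((l.val + 1 = i.val ∨ i.val + 1 = l.val) ↔
      (l.val + 1 = j.val ∨ j.val + 1 = l.val)) ∧ ((l.val + 1 = i.val ∨ i.val + 1 = l.val) ↔
      (l.val + 1 = k.val ∨ k.val + 1 = l.val)) := by
    intro l
    have a := h1 (p l)
    have b := h2 (p l)
    rw [p.map_adj_iff, p.map_adj_iff, pathGraph_adj, pathGraph_adj] at a b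
    exact ⟨a, b⟩
  -- the predecessor of a non-minimal one of the three is a common neighbour of all three
  by_cases hi : i.val = 0
  · have hj : 0 < j.val := by omega
    have := key ⟨j.val - 1, by have := j.isLt; omega⟩
    simp only at this
    omega
  · have := key ⟨i.val - 1, by have := i.isLt; omega⟩
    simp only at this
    by_cases hj : j.val = 0
    · have h3 := key ⟨k.val - 1, by have := k.isLt; omega⟩
      simp only at h3
      omega
    · omega

theorem two_le_mp [Finite V] [Nontrivial V] : 2 ≤ mp G := by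
  obtain ⟨x, y, hxy⟩ := exists_pair_ne V
  classical
  have hmem : 2 ∈ {m | ∃ S : Finset V, IsMPSet G S ∧ S.card = m} := by
    refine ⟨{x, y}, ?_, Finset.card_pair hxy⟩
    intro a ha b hb c hc hab hbc hac
    exfalso
    simp only [Finset.mem_insert, Finset.mem_singleton] at ha hb hc
    rcases ha with rfl | rfl <;> rcases hb with rfl | rfl <;> rcases hc with rfl | rfl <;>
      simp_all
  have : Fintype V := Fintype.ofFinite V
  refine le_csSup ⟨Fintype.card V, ?_⟩ hmem
  rintro m ⟨S, _, rfl⟩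
  exact Finset.card_le_univ S

theorem mp_le_two_iff [Finite V] : mp G ≤ 2 ↔
    ∀ x y z : V, x ≠ y → y ≠ z → x ≠ z → OnInducedPath G x y z := by
  classical
  have : Fintype V := Fintype.ofFinite V
  constructor
  · intro h x y z hxy hyz hxz
    by_contra hno
    have hmem : 3 ∈ {m | ∃ S : Finset V, IsMPSet G S ∧ S.card = m} := by
      refine ⟨{x, y, z}, ?_, Finset.card_eq_three.2 ⟨x, y, z, hxy, hxz, hyz, rfl⟩⟩
      have hno2 : ¬ OnInducedPath G y x z := fun h => hno h.swap12
      have hno3 : ¬ OnInducedPath G x z y := fun h => hno h.swap23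
      have hno4 : ¬ OnInducedPath G z x y := fun h => hno3 h.swap12
      have hno5 : ¬ OnInducedPath G y z x := fun h => hno2 h.swap23
      have hno6 : ¬ OnInducedPath G z y x := fun h => hno5 h.swap12
      intro a ha b hb c hc hab hbc hac
      simp only [Finset.mem_insert, Finset.mem_singleton] at ha hb hc
      rcases ha with rfl | rfl | rfl <;> rcases hb with rfl | rfl | rfl <;>
        rcases hc with rfl | rfl | rfl <;>
        first
        | assumption
        | exact absurd rfl hab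
        | exact absurd rfl hbc
        | exact absurd rfl hac
    have h3 : 3 ≤ mp G := by
      refine le_csSup ⟨Fintype.card V, ?_⟩ hmem
      rintro m ⟨S, _, rfl⟩
      exact Finset.card_le_univ S
    omega
  · intro h
    refine csSup_le' ?_
    rintro m ⟨S, hS, rfl⟩
    by_contra hlt
    obtain ⟨a, ha, b, hb, c, hc, hab, hac, hbc⟩ := Finset.two_lt_card.1 (not_le.1 hlt)
    exact hS a ha b hb c hc hab hbc hac (h a b c hab hbc hac)

/-- Build an induced path from an injective sequence. -/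
def emb {m : ℕ} (f : Fin m → V) (hinj : Function.Injective f)
    (h : ∀ i j, G.Adj (f i) (f j) ↔ (pathGraph m).Adj i j) : pathGraph m ↪g G :=
  ⟨⟨f, hinj⟩, fun {i j} => h i j⟩

theorem onPath3 {x y z : V} (hxy : G.Adj x y) (hyz : G.Adj y z) (hxz : ¬ G.Adj x z)
    (h13 : x ≠ z) : OnInducedPath G x y z := by
  have h12 := hxy.ne
  have h23 := hyz.ne
  refine ⟨3, emb ![x, y, z] ?_ ?_, ⟨0, rfl⟩, ⟨1, rfl⟩, ⟨2, rfl⟩⟩
  · intro i j hij
    fin_cases i <;> fin_cases j <;> simp_all
  · intro i j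
    fin_cases i <;> fin_cases j <;>
      simp [pathGraph_adj, hxy, hyz, hxz, hxy.symm, hyz.symm, G.adj_comm z x]

theorem onPath4 {x y w z : V} (hxy : G.Adj x y) (hyw : G.Adj y w) (hwz : G.Adj w z)
    (hxw : ¬ G.Adj x w) (hxz : ¬ G.Adj x z) (hyz : ¬ G.Adj y z) :
    OnInducedPath G x y z := by
  have h12 := hxy.ne
  have h23 := hyw.ne
  have h34 := hwz.ne
  have h13 : x ≠ w := fun h => hxz (h ▸ hwz)
  have h14 : x ≠ z := fun h => hyz (h ▸ hxy.symm)
  have h24 : y ≠ z := fun h => hxz (h ▸ hxy)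
  refine ⟨4, emb ![x, y, w, z] ?_ ?_, ⟨0, rfl⟩, ⟨1, rfl⟩, ⟨3, rfl⟩⟩
  · intro i j hij
    fin_cases i <;> fin_cases j <;> simp_all
  · intro i j
    fin_cases i <;> fin_cases j <;>
      simp [pathGraph_adj, hxy, hyw, hwz, hxw, hxz, hyz, hxy.symm, hyw.symm, hwz.symm,
        G.adj_comm w x, G.adj_comm z x, G.adj_comm z y]

theorem onPath5 {x u y w z : V} (h12 : G.Adj x u) (h23 : G.Adj u y) (h34 : G.Adj y w)
    (h45 : G.Adj w z) (h13 : ¬ G.Adj x y) (h14 : ¬ G.Adj x w) (h15 : ¬ G.Adj x z)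
    (h24 : ¬ G.Adj u w) (h25 : ¬ G.Adj u z) (h35 : ¬ G.Adj y z)
    (n13 : x ≠ y) (n15 : x ≠ z) (n35 : y ≠ z) : OnInducedPath G x y z := by
  have n12 := h12.ne
  have n23 := h23.ne
  have n34 := h34.ne
  have n45 := h45.ne
  have n14 : x ≠ w := fun h => h13 (h ▸ h34.symm)
  have n24 : u ≠ w := fun h => h14 (h ▸ h12)
  have n25 : u ≠ z := fun h => h15 (h ▸ h12)
  refine ⟨5, emb ![x, u, y, w, z] ?_ ?_, ⟨0, rfl⟩, ⟨2, rfl⟩, ⟨4, rfl⟩⟩
  · intro i j hij
    fin_cases i <;> fin_cases j <;> simp_all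
  · intro i j
    fin_cases i <;> fin_cases j <;>
      simp [pathGraph_adj, h12, h23, h34, h45, h13, h14, h15, h24, h25, h35, h12.symm, h23.symm,
        h34.symm, h45.symm, G.adj_comm y x, G.adj_comm w x, G.adj_comm z x, G.adj_comm w u,
        G.adj_comm z u, G.adj_comm z y]

/-- Common neighbour of `x`, `y` missing `z`, and common neighbour of `y`, `z` missing `x`. -/
def Good (G : SimpleGraph V) (x y z : V) : Prop :=
  (∃ u, G.Adj x u ∧ G.Adj u y ∧ ¬ G.Adj u z) ∧ (∃ w, G.Adj y w ∧ G.Adj w z ∧ ¬ G.Adj w x)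

theorem onPath_of_good (htf : ∀ x y z, G.Adj x y → G.Adj y z → ¬ G.Adj x z) {x y z : V}
    (n13 : x ≠ y) (n15 : x ≠ z) (n35 : y ≠ z)
    (h13 : ¬ G.Adj x y) (h15 : ¬ G.Adj x z) (h35 : ¬ G.Adj y z) (h : Good G x y z) :
    OnInducedPath G x y z := by
  obtain ⟨⟨u, a1, a2, a3⟩, ⟨w, b1, b2, b3⟩⟩ := h
  exact onPath5 a1 a2 b1 b2 h13 (fun h => b3 h.symm) h15 (htf u y w a2 b1) a3 h35 n13 n15 n35

/-- In a triangle-free graph in which any two non-adjacent vertices have a common neighbour,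
it suffices to look at independent triples. -/
theorem onPath_all (htf : ∀ x y z, G.Adj x y → G.Adj y z → ¬ G.Adj x z)
    (hcn : ∀ x y, x ≠ y → ¬ G.Adj x y → ∃ w, G.Adj x w ∧ G.Adj w y)
    (hind : ∀ x y z, x ≠ y → y ≠ z → x ≠ z → ¬ G.Adj x y → ¬ G.Adj y z → ¬ G.Adj x z →
      OnInducedPath G x y z)
    (x y z : V) (hxy : x ≠ y) (hyz : y ≠ z) (hxz : x ≠ z) : OnInducedPath G x y z := by
  have edge : ∀ x y z : V, x ≠ y → y ≠ z → x ≠ z → G.Adj x y → OnInducedPath G x y z := by
    intro x y z hxy hyz hxz h1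
    by_cases h2 : G.Adj y z
    · exact onPath3 h1 h2 (htf x y z h1 h2) hxz
    · by_cases h3 : G.Adj x z
      · exact (onPath3 h1.symm h3 h2 hyz).swap12
      · obtain ⟨w, hw1, hw2⟩ := hcn y z hyz h2
        exact onPath4 h1 hw1 hw2 (htf x y w h1 hw1) h3 h2
  by_cases h1 : G.Adj x y
  · exact edge x y z hxy hyz hxz h1
  · by_cases h2 : G.Adj y z
    · exact (edge y z x hyz hxz.symm hxy.symm h2).swap23.swap12
    · by_cases h3 : G.Adj x z
      · exact (edge x z y hxz hyz.symm hxy h3).swap23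
      · exact hind x y z hxy hyz hxz h1 h2 h3

end General

section Circ

/-- Adjacency of residues in terms of a set `P` of natural numbers. -/
def A (P : ℕ → Prop) (i j : ℕ) : Prop := (i < j ∧ P (j - i)) ∨ (j < i ∧ P (i - j))

/-- Witness for the independent triple `0, a, b`. -/
def Wit (P : ℕ → Prop) (n a b : ℕ) : Prop :=
  ∃ u w, u < n ∧ w < n ∧
    ((A P 0 u ∧ A P u a ∧ ¬ A P u b ∧ A P a w ∧ A P w b ∧ ¬ A P w 0) ∨
     (A P a u ∧ A P u 0 ∧ ¬ A P u b ∧ A P 0 w ∧ A P w b ∧ ¬ A P w a) ∨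
     (A P 0 u ∧ A P u b ∧ ¬ A P u a ∧ A P b w ∧ A P w a ∧ ¬ A P w 0))

/-- The conditions on a set `P ⊆ {1, …, n - 1}` of residues. -/
structure Core (n : ℕ) (P : ℕ → Prop) : Prop where
  pos : ∀ d, P d → 0 < d ∧ d < n
  symm : ∀ d, P d → P (n - d)
  sf : ∀ d e, P d → P e → ¬ P (d + e)
  cn : ∀ d, 0 < d → 2 * d ≤ n → ¬ P d → ∃ c, c < n ∧ A P 0 c ∧ A P c d
  ne : ∃ d, 0 < d ∧ d < n ∧ ¬ P d
  wit : ∀ a b, 0 < a → a < b → b < n → a ≤ n - b → b - a ≤ n - b → ¬ P a → ¬ P b →
    ¬ P (b - a) → Wit P n a b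

/-- the connection set -/
def conn (n : ℕ) (P : ℕ → Prop) : Set (ZMod n) := {x | P x.val}

variable {n : ℕ} {P : ℕ → Prop}

theorem adj_cast (hn : 0 < n) (h : Core n P) (t : ZMod n) {i j : ℕ} (hi : i < n) (hj : j < n) :
    (circulantGraph (conn n P)).Adj (t + i) (t + j) ↔ A P i j := by
  have : NeZero n := ⟨hn.ne'⟩
  have key : ∀ i j : ℕ, i < n → j < n → i < j →
      ((circulantGraph (conn n P)).Adj (t + i) (t + j) ↔ P (j - i)) := by
    intro i j hi hj hij
    have e1 : t + (j : ZMod n) - (t + i) = ((j - i : ℕ) : ZMod n) := by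
      rw [Nat.cast_sub hij.le]; ring
    have e2 : t + (i : ZMod n) - (t + j) = ((n - (j - i) : ℕ) : ZMod n) := by
      rw [Nat.cast_sub (by omega), Nat.cast_sub hij.le, ZMod.natCast_self]; ring
    have hne : t + (i : ZMod n) ≠ t + j := by
      intro he
      have h1 := add_left_cancel he
      have h2 := congrArg ZMod.val h1
      rw [ZMod.val_natCast_of_lt hi, ZMod.val_natCast_of_lt hj] at h2
      omega
    rw [circulantGraph_adj]
    simp only [conn, Set.mem_ofPred_eq]
    rw [e1, e2, ZMod.val_natCast_of_lt (by omega), ZMod.val_natCast_of_lt (by omega)]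
    constructor
    · rintro ⟨_, h1 | h1⟩
      · have h2 := h.symm _ h1
        have h3 : n - (n - (j - i)) = j - i := by omega
        rwa [h3] at h2
      · exact h1
    · intro h1
      exact ⟨hne, Or.inr h1⟩
  rcases lt_trichotomy i j with hij | hij | hij
  · rw [key i j hi hj hij]
    unfold A
    constructor
    · intro h1; exact Or.inl ⟨hij, h1⟩
    · rintro (⟨_, h1⟩ | ⟨h1, _⟩)
      · exact h1
      · omega
  · subst hij
    constructor
    · intro h1; exact absurd rfl h1.ne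
    · rintro (⟨h1, _⟩ | ⟨h1, _⟩) <;> omega
  · rw [SimpleGraph.adj_comm, key j i hj hi hij]
    unfold A
    constructor
    · intro h1; exact Or.inr ⟨hij, h1⟩
    · rintro (⟨h1, _⟩ | ⟨_, h1⟩)
      · omega
      · exact h1

theorem A_comm {P : ℕ → Prop} {i j : ℕ} : A P i j ↔ A P j i := by
  unfold A; exact or_comm

theorem A_lt {P : ℕ → Prop} {i j : ℕ} (h : i < j) (hp : P (j - i)) : A P i j := Or.inl ⟨h, hp⟩

theorem A_gt {P : ℕ → Prop} {i j : ℕ} (h : j < i) (hp : P (i - j)) : A P i j := Or.inr ⟨h, hp⟩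

theorem nA_lt {P : ℕ → Prop} {i j : ℕ} (h : i < j) (hp : ¬ P (j - i)) : ¬ A P i j := by
  rintro (⟨_, h2⟩ | ⟨h2, _⟩)
  · exact hp h2
  · omega

theorem nA_gt {P : ℕ → Prop} {i j : ℕ} (h : j < i) (hp : ¬ P (i - j)) : ¬ A P i j := by
  rintro (⟨h2, _⟩ | ⟨_, h2⟩)
  · omega
  · exact hp h2

theorem circ_tf (hn : 0 < n) (h : Core n P) (x y z : ZMod n)
    (hxy : (circulantGraph (conn n P)).Adj x y) (hyz : (circulantGraph (conn n P)).Adj y z) :
    ¬ (circulantGraph (conn n P)).Adj x z := by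
  have : NeZero n := ⟨hn.ne'⟩
  intro hxz
  have e : ∀ u : ZMod n, (0 : ZMod n) + (u.val : ZMod n) = u := fun u => by
    rw [zero_add, ZMod.natCast_zmod_val]
  rw [← e x, ← e y, adj_cast hn h 0 x.val_lt y.val_lt] at hxy
  rw [← e y, ← e z, adj_cast hn h 0 y.val_lt z.val_lt] at hyz
  rw [← e x, ← e z, adj_cast hn h 0 x.val_lt z.val_lt] at hxz
  have key : ∀ i j k : ℕ, i < j → j < k → P (j - i) → P (k - j) → P (k - i) → False := by
    intro i j k hij hjk h1 h2 h3
    refine h.sf _ _ h1 h2 ?_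
    have : j - i + (k - j) = k - i := by omega
    rwa [this]
  unfold A at hxy hyz hxz
  rcases hxy with ⟨l1, p1⟩ | ⟨l1, p1⟩ <;> rcases hyz with ⟨l2, p2⟩ | ⟨l2, p2⟩ <;>
    rcases hxz with ⟨l3, p3⟩ | ⟨l3, p3⟩
  · exact key _ _ _ l1 l2 p1 p2 p3
  · omega
  · exact key _ _ _ l3 l2 p3 p2 p1
  · exact key _ _ _ l3 l1 p3 p1 p2
  · exact key _ _ _ l1 l3 p1 p3 p2
  · exact key _ _ _ l2 l3 p2 p3 p1
  · omega
  · exact key _ _ _ l2 l1 p2 p1 p3

theorem circ_cn (hn : 0 < n) (h : Core n P) (x y : ZMod n) (hne : x ≠ y)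
    (hxy : ¬ (circulantGraph (conn n P)).Adj x y) :
    ∃ w, (circulantGraph (conn n P)).Adj x w ∧ (circulantGraph (conn n P)).Adj w y := by
  have : NeZero n := ⟨hn.ne'⟩
  have key : ∀ x y : ZMod n, x ≠ y → ¬ (circulantGraph (conn n P)).Adj x y →
      2 * (y - x).val ≤ n →
      ∃ w, (circulantGraph (conn n P)).Adj x w ∧ (circulantGraph (conn n P)).Adj w y := by
    intro x y hne hxy h2
    have e0 : x + ((0 : ℕ) : ZMod n) = x := by simp
    have e1 : x + ((y - x).val : ZMod n) = y := by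
      rw [ZMod.natCast_zmod_val]; ring
    have hpos : 0 < (y - x).val := by
      rw [Nat.pos_iff_ne_zero]
      intro h0
      rw [ZMod.val_eq_zero] at h0
      exact hne (sub_eq_zero.1 h0).symm
    have hP : ¬ P (y - x).val := by
      intro hp
      apply hxy
      have := (adj_cast hn h x (i := 0) (j := (y - x).val) hn (ZMod.val_lt _)).2
        (Or.inl ⟨hpos, by simpa using hp⟩)
      rwa [e0, e1] at this
    obtain ⟨c, hc, hc1, hc2⟩ := h.cn _ hpos h2 hP
    refine ⟨x + c, ?_, ?_⟩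
    · have := (adj_cast hn h x (i := 0) hn hc).2 hc1
      rwa [e0] at this
    · have := (adj_cast hn h x hc (ZMod.val_lt (y - x))).2 hc2
      rwa [e1] at this
  by_cases h2 : 2 * (y - x).val ≤ n
  · exact key x y hne hxy h2
  · have h3 : 2 * (x - y).val ≤ n := by
      have h4 : x - y = -(y - x) := by ring
      have h5 : y - x ≠ 0 := fun h0 => hne (sub_eq_zero.1 h0).symm
      have : NeZero (y - x) := ⟨h5⟩
      rw [h4, ZMod.val_neg_of_ne_zero]
      have := ZMod.val_lt (y - x)
      omega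
    obtain ⟨w, hw1, hw2⟩ := key y x hne.symm (fun h => hxy h.symm) h3
    exact ⟨w, hw2.symm, hw1.symm⟩

/-- Independent triples `t, t + a, t + b`. -/
theorem circ_base (hn : 0 < n) (h : Core n P) (t : ZMod n) {a b : ℕ} (ha : 0 < a) (hab : a < b)
    (hb : b < n) (h1 : a ≤ n - b) (h2 : b - a ≤ n - b)
    (i1 : ¬ (circulantGraph (conn n P)).Adj t (t + a))
    (i2 : ¬ (circulantGraph (conn n P)).Adj (t + a) (t + b))
    (i3 : ¬ (circulantGraph (conn n P)).Adj t (t + b)) :
    OnInducedPath (circulantGraph (conn n P)) t (t + a) (t + b) := by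
  have : NeZero n := ⟨hn.ne'⟩
  have e0 : t + ((0 : ℕ) : ZMod n) = t := by simp
  have j1 := i1
  have j2 := i2
  have j3 := i3
  have dist : ∀ i j : ℕ, i < n → j < n → i ≠ j → t + (i : ZMod n) ≠ t + j := by
    intro i j hi hj hij he
    have h2 := congrArg ZMod.val (add_left_cancel he)
    rw [ZMod.val_natCast_of_lt hi, ZMod.val_natCast_of_lt hj] at h2
    exact hij h2
  have d1 : t ≠ t + a := by
    have := dist 0 a hn (by omega) (by omega)
    rwa [e0] at this
  have d2 : t + (a : ZMod n) ≠ t + b := dist a b (by omega) hb (by omega)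
  have d3 : t ≠ t + b := by
    have := dist 0 b hn hb (by omega)
    rwa [e0] at this
  have c1 : (circulantGraph (conn n P)).Adj t (t + a) ↔ A P 0 a := by
    have := adj_cast hn h t (i := 0) (j := a) hn (by omega)
    rwa [e0] at this
  have c3 : (circulantGraph (conn n P)).Adj t (t + b) ↔ A P 0 b := by
    have := adj_cast hn h t (i := 0) (j := b) hn hb
    rwa [e0] at this
  have c2 := adj_cast hn h t (i := a) (j := b) (by omega) hb
  rw [c1] at i1
  rw [c2] at i2
  rw [c3] at i3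
  have p1 : ¬ P a := fun hp => i1 (Or.inl ⟨ha, by simpa using hp⟩)
  have p2 : ¬ P (b - a) := fun hp => i2 (Or.inl ⟨hab, hp⟩)
  have p3 : ¬ P b := fun hp => i3 (Or.inl ⟨by omega, by simpa using hp⟩)
  obtain ⟨u, w, hu, hw, hh⟩ := h.wit a b ha hab hb h1 h2 p1 p3 p2
  have tr : ∀ i j : ℕ, i < n → j < n → (A P i j →
      (circulantGraph (conn n P)).Adj (t + i) (t + j)) := fun i j hi hj =>
    (adj_cast hn h t hi hj).2
  have tr' : ∀ i j : ℕ, i < n → j < n → (¬ A P i j →
      ¬ (circulantGraph (conn n P)).Adj (t + i) (t + j)) := fun i j hi hj =>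
    mt (adj_cast hn h t hi hj).1
  have tr0 : ∀ j : ℕ, j < n → (A P 0 j →
      (circulantGraph (conn n P)).Adj t (t + j)) := by
    intro j hj hA
    have := tr 0 j hn hj hA
    rwa [e0] at this
  have tr0' : ∀ j : ℕ, j < n → (¬ A P 0 j →
      ¬ (circulantGraph (conn n P)).Adj t (t + j)) := by
    intro j hj hA
    have := tr' 0 j hn hj hA
    rwa [e0] at this
  have han : a < n := by omega
  rcases hh with ⟨q1, q2, q3, q4, q5, q6⟩ | ⟨q1, q2, q3, q4, q5, q6⟩ | ⟨q1, q2, q3, q4, q5, q6⟩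
  · exact onPath_of_good (circ_tf hn h) d1 d3 d2 j1 j3 j2
      ⟨⟨t + u, tr0 u hu q1, tr u a hu han q2, tr' u b hu hb q3⟩,
        ⟨t + w, tr a w han hw q4, tr w b hw hb q5,
          fun hh => tr0' w hw (fun h => q6 (A_comm.1 h)) hh.symm⟩⟩
  · have := onPath_of_good (circ_tf hn h) (x := t + a) (y := t) (z := t + b) d1.symm d2 d3
      (fun hh => j1 hh.symm) j2 j3
      ⟨⟨t + u, tr a u han hu q1, (tr0 u hu (A_comm.1 q2)).symm, tr' u b hu hb q3⟩,
        ⟨t + w, tr0 w hw q4, tr w b hw hb q5, tr' w a hw han q6⟩⟩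
    exact this.swap12
  · have := onPath_of_good (circ_tf hn h) (x := t) (y := t + b) (z := t + a) d3 d1 d2.symm
      j3 j1 (fun hh => j2 hh.symm)
      ⟨⟨t + u, tr0 u hu q1, tr u b hu hb q2, tr' u a hu han q3⟩,
        ⟨t + w, tr b w hb hw q4, tr w a hw han q5,
          fun hh => tr0' w hw (fun h => q6 (A_comm.1 h)) hh.symm⟩⟩
    exact this.swap23

theorem circ_ind (hn : 0 < n) (h : Core n P) (x y z : ZMod n) (hxy : x ≠ y) (hyz : y ≠ z)
    (hxz : x ≠ z) (i1 : ¬ (circulantGraph (conn n P)).Adj x y)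
    (i2 : ¬ (circulantGraph (conn n P)).Adj y z) (i3 : ¬ (circulantGraph (conn n P)).Adj x z) :
    OnInducedPath (circulantGraph (conn n P)) x y z := by
  have : NeZero n := ⟨hn.ne'⟩
  -- sorted case
  have key : ∀ x y z : ZMod n, x.val < y.val → y.val < z.val →
      ¬ (circulantGraph (conn n P)).Adj x y → ¬ (circulantGraph (conn n P)).Adj y z →
      ¬ (circulantGraph (conn n P)).Adj x z →
      OnInducedPath (circulantGraph (conn n P)) x y z := by
    intro x y z l1 l2 i1 i2 i3
    have hz := z.val_lt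
    have ex : ((x.val : ℕ) : ZMod n) = x := ZMod.natCast_zmod_val x
    have ey : ((y.val : ℕ) : ZMod n) = y := ZMod.natCast_zmod_val y
    have ez : ((z.val : ℕ) : ZMod n) = z := ZMod.natCast_zmod_val z
    have en : ((n : ℕ) : ZMod n) = 0 := ZMod.natCast_self n
    by_cases g3 : y.val - x.val ≤ n - (z.val - x.val) ∧ z.val - y.val ≤ n - (z.val - x.val)
    · have e1 : x + ((y.val - x.val : ℕ) : ZMod n) = y := by
        rw [Nat.cast_sub l1.le, ex, ey]; ring
      have e2 : x + ((z.val - x.val : ℕ) : ZMod n) = z := by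
        rw [Nat.cast_sub (by omega), ex, ez]; ring
      have := circ_base hn h x (a := y.val - x.val) (b := z.val - x.val) (by omega) (by omega)
        (by omega) (by omega) (by omega)
      rw [e1, e2] at this
      exact this i1 i2 i3
    · by_cases g1 : z.val - y.val ≤ y.val - x.val
      · -- the first gap is largest
        have e1 : y + ((z.val - y.val : ℕ) : ZMod n) = z := by
          rw [Nat.cast_sub l2.le, ey, ez]; ring
        have e2 : y + ((n - (y.val - x.val) : ℕ) : ZMod n) = x := by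
          rw [Nat.cast_sub (by omega), Nat.cast_sub l1.le, ex, ey, en]; ring
        have := circ_base hn h y (a := z.val - y.val) (b := n - (y.val - x.val)) (by omega)
          (by omega) (by omega) (by omega) (by omega)
        rw [e1, e2] at this
        exact (this i2 (fun h => i3 h.symm) (fun h => i1 h.symm)).swap23.swap12
      · have e1 : z + ((n - (z.val - x.val) : ℕ) : ZMod n) = x := by
          rw [Nat.cast_sub (by omega), Nat.cast_sub (by omega), ex, ez, en]; ring
        have e2 : z + ((n - (z.val - y.val) : ℕ) : ZMod n) = y := by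
          rw [Nat.cast_sub (by omega), Nat.cast_sub (by omega), ey, ez, en]; ring
        have := circ_base hn h z (a := n - (z.val - x.val)) (b := n - (z.val - y.val)) (by omega)
          (by omega) (by omega) (by omega) (by omega)
        rw [e1, e2] at this
        exact (this (fun h => i3 h.symm) i1 (fun h => i2 h.symm)).swap12.swap23
  have vne : ∀ u v : ZMod n, u ≠ v → u.val ≠ v.val := fun u v huv h =>
    huv (ZMod.val_injective n h)
  have n1 := vne x y hxy
  have n2 := vne y z hyz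
  have n3 := vne x z hxz
  rcases lt_or_gt_of_ne n1 with l1 | l1 <;> rcases lt_or_gt_of_ne n2 with l2 | l2 <;>
    rcases lt_or_gt_of_ne n3 with l3 | l3
  · exact key x y z l1 l2 i1 i2 i3
  · omega
  · exact (key x z y l3 l2 i3 (fun h => i2 h.symm) i1).swap23
  · exact (key z x y l3 l1 (fun h => i3 h.symm) i1 (fun h => i2 h.symm)).swap12.swap23
  · exact (key y x z l1 l3 (fun h => i1 h.symm) i3 i2).swap12
  · exact (key y z x l2 l3 i2 (fun h => i3 h.symm) (fun h => i1 h.symm)).swap23.swap12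
  · omega
  · exact (key z y x l2 l1 (fun h => i2 h.symm) (fun h => i1 h.symm)
      (fun h => i3 h.symm)).swap23.swap12.swap23

theorem mp_eq_two (hn : 2 ≤ n) (h : Core n P) : mp (circulantGraph (conn n P)) = 2 := by
  have : NeZero n := ⟨by omega⟩
  have : Fact (1 < n) := ⟨by omega⟩
  apply le_antisymm
  · rw [mp_le_two_iff]
    exact onPath_all (circ_tf (by omega) h) (circ_cn (by omega) h) (circ_ind (by omega) h)
  · exact two_le_mp

theorem diam_eq_two (hn : 2 ≤ n) (h : Core n P) : (circulantGraph (conn n P)).diam = 2 := by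
  have : NeZero n := ⟨by omega⟩
  have : Fact (1 < n) := ⟨by omega⟩
  set G := circulantGraph (conn n P) with hG
  have hle : G.ediam ≤ 2 := by
    refine ediam_le_of_edist_le fun x y => ?_
    by_cases hxy : x = y
    · subst hxy; simp
    · by_cases hadj : G.Adj x y
      · have := (Walk.cons hadj Walk.nil).edist_le
        refine this.trans ?_
        simp
      · obtain ⟨w, h1, h2⟩ := circ_cn (by omega) h x y hxy hadj
        have := (Walk.cons h1 (Walk.cons h2 Walk.nil)).edist_le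
        refine this.trans ?_
        simp
  have hne : G.ediam ≠ ⊤ := by
    intro ht
    rw [ht] at hle
    exact absurd hle (by decide)
  have hle2 : G.diam ≤ 2 := by
    have := ENat.toNat_le_toNat hle (by decide)
    simpa [diam] using this
  obtain ⟨d, hd0, hdn, hd⟩ := h.ne
  have hnadj : ¬ G.Adj (0 : ZMod n) ((d : ℕ) : ZMod n) := by
    have e := adj_cast (by omega : 0 < n) h 0 (i := 0) (j := d) (by omega) hdn
    rw [Nat.cast_zero, add_zero, zero_add] at e
    rw [hG, e]
    rintro (⟨_, h1⟩ | ⟨h1, _⟩)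
    · exact hd (by simpa using h1)
    · omega
  have hneq : (0 : ZMod n) ≠ ((d : ℕ) : ZMod n) := by
    intro he
    have := congrArg ZMod.val he
    rw [ZMod.val_natCast_of_lt hdn, ZMod.val_zero] at this
    omega
  have h0 : G.diam ≠ 0 := diam_ne_zero_of_ediam_ne_top hne
  have h1 : G.diam ≠ 1 := by
    intro h1
    rw [diam_eq_one] at h1
    exact hnadj (by rw [h1]; exact hneq)
  omega

end Circ

section Families

/-- `n = 3k - 1` -/
def PA (k d : ℕ) : Prop := k ≤ d ∧ d + 1 ≤ 2 * k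

theorem coreA {k : ℕ} (hk : 4 ≤ k) : Core (3 * k - 1) (PA k) where
  pos := by intro d; unfold PA; omega
  symm := by intro d; unfold PA; omega
  sf := by intro d e; unfold PA; omega
  cn := by
    intro d hd hd2 hP
    refine ⟨d + k, ?_⟩
    unfold A PA at *
    omega
  ne := ⟨1, by omega, by omega, by unfold PA; omega⟩
  wit := by
    intro a b ha hab hb h1 h2 p1 p2 p3
    refine ⟨a + k, 2 * k, ?_⟩
    unfold A PA at *
    have hb' : b + 1 ≤ k := by omega
    refine ⟨by omega, by omega, Or.inl ⟨?_, ?_, ?_, ?_, ?_, ?_⟩⟩ <;> omega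

/-- `n = 3k + 1` -/
def PB (k d : ℕ) : Prop := d = k ∨ (k + 2 ≤ d ∧ d + 1 ≤ 2 * k) ∨ d = 2 * k + 1

theorem coreB {k : ℕ} (hk : 5 ≤ k) : Core (3 * k + 1) (PB k) where
  pos := by intro d; unfold PB; omega
  symm := by intro d; unfold PB; omega
  sf := by intro d e; unfold PB; omega
  cn := by
    intro d hd hd2 hP
    have hc : d ≤ k - 3 ∨ d = k - 2 ∨ d = k - 1 ∨ d = k + 1 := by unfold PB at hP; omega
    rcases hc with hc | hc | hc | hc
    · exact ⟨k + 2 + d, by unfold A PB; omega⟩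
    · exact ⟨2 * k - 2, by unfold A PB; omega⟩
    · exact ⟨2 * k - 1, by unfold A PB; omega⟩
    · exact ⟨2 * k + 1, by unfold A PB; omega⟩
  ne := ⟨1, by omega, by omega, by unfold PB; omega⟩
  wit := by
    intro a b ha hab hb h1 h2 p1 p2 p3
    have hc : b ≤ k - 1 ∨ (b = k + 1 ∧ 2 ≤ a ∧ a ≤ k - 1) ∨
        (a = k + 1 ∧ b = 2 * k) ∨ (a = k - 1 ∧ b = 2 * k) := by
      unfold PB at p1 p2 p3; omega
    rcases hc with hc | hc | hc | hc
    · by_cases c1 : a = 1
      · by_cases c2 : b - a = 1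
        · refine ⟨b + k + 1, 2 * k, ?_⟩
          subst c1
          have : b = 2 := by omega
          subst this
          refine ⟨by omega, by omega, Or.inl ⟨?_, ?_, ?_, ?_, ?_, ?_⟩⟩ <;> unfold A PB <;> omega
        · by_cases c3 : b ≤ k - 2
          · refine ⟨b + k + 1, a + 2 * k + 1, ?_⟩
            refine ⟨by omega, by omega, Or.inl ⟨?_, ?_, ?_, ?_, ?_, ?_⟩⟩ <;> unfold A PB <;> omega
          · refine ⟨k + 3, a + 2 * k + 1, ?_⟩
            refine ⟨by omega, by omega, Or.inl ⟨?_, ?_, ?_, ?_, ?_, ?_⟩⟩ <;> unfold A PB <;> omega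
      · by_cases c2 : b - a = 1
        · by_cases c3 : b ≤ k - 2
          · refine ⟨a + k, 2 * k, ?_⟩
            refine ⟨by omega, by omega, Or.inl ⟨?_, ?_, ?_, ?_, ?_, ?_⟩⟩ <;> unfold A PB <;> omega
          · refine ⟨a + k, 3 * k - 3, ?_⟩
            refine ⟨by omega, by omega, Or.inl ⟨?_, ?_, ?_, ?_, ?_, ?_⟩⟩ <;> unfold A PB <;> omega
        · refine ⟨a + k, a + 2 * k + 1, ?_⟩
          refine ⟨by omega, by omega, Or.inl ⟨?_, ?_, ?_, ?_, ?_, ?_⟩⟩ <;> unfold A PB <;> omega
    · refine ⟨a + k, a + 2 * k + 1, ?_⟩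
      refine ⟨by omega, by omega, Or.inl ⟨?_, ?_, ?_, ?_, ?_, ?_⟩⟩ <;> unfold A PB <;> omega
    · obtain ⟨rfl, rfl⟩ := hc
      refine ⟨2 * k + 1, k, ?_⟩
      refine ⟨by omega, by omega, Or.inr (Or.inl ⟨?_, ?_, ?_, ?_, ?_, ?_⟩)⟩ <;>
        unfold A PB <;> omega
    · obtain ⟨rfl, rfl⟩ := hc
      refine ⟨k, 3 * k, ?_⟩
      refine ⟨by omega, by omega, Or.inr (Or.inr ⟨?_, ?_, ?_, ?_, ?_, ?_⟩)⟩ <;>
        unfold A PB <;> omega

/-- `n = 3k` -/
def PC (k d : ℕ) : Prop := d + 1 = k ∨ d = k + 1 ∨ (k + 3 ≤ d ∧ d + 3 ≤ 2 * k) ∨ d + 1 = 2 * k ∨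
  d = 2 * k + 1

theorem PC_not {k d : ℕ} (hk : 10 ≤ k) (h : ¬ PC k d) :
    d + 2 ≤ k ∨ d = k ∨ d = k + 2 ∨ d + 2 = 2 * k ∨ d = 2 * k ∨ 2 * k + 2 ≤ d := by
  unfold PC at h; omega

theorem PC1 {k d : ℕ} (h : d + 1 = k) : PC k d := Or.inl h

theorem PC2 {k d : ℕ} (h : d = k + 1) : PC k d := Or.inr (Or.inl h)

theorem PC3 {k d : ℕ} (h : k + 3 ≤ d) (h' : d + 3 ≤ 2 * k) : PC k d :=
  Or.inr (Or.inr (Or.inl ⟨h, h'⟩))

theorem PC4 {k d : ℕ} (h : d + 1 = 2 * k) : PC k d := Or.inr (Or.inr (Or.inr (Or.inl h)))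

theorem PC5 {k d : ℕ} (h : d = 2 * k + 1) : PC k d := Or.inr (Or.inr (Or.inr (Or.inr h)))

theorem nPC1 {k d : ℕ} (hk : 10 ≤ k) (h : d + 2 ≤ k) : ¬ PC k d := by unfold PC; omega

theorem nPC2 {k d : ℕ} (hk : 10 ≤ k) (h : 2 * k + 2 ≤ d) : ¬ PC k d := by unfold PC; omega

theorem nPC3 {k d : ℕ} (hk : 10 ≤ k) (h : d = k) : ¬ PC k d := by unfold PC; omega

theorem nPC4 {k d : ℕ} (hk : 10 ≤ k) (h : d = k + 2) : ¬ PC k d := by unfold PC; omega

theorem nPC5 {k d : ℕ} (hk : 10 ≤ k) (h : d = 2 * k) : ¬ PC k d := by unfold PC; omega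

theorem cases_C {k a b : ℕ} (hk : 10 ≤ k) (ha : 0 < a) (hab : a < b)
    (h1 : a ≤ 3 * k - b) (h2 : b - a ≤ 3 * k - b)
    (p1 : ¬ PC k a) (p2 : ¬ PC k b) (p3 : ¬ PC k (b - a)) :
    b + 2 ≤ k ∨ (b = k ∧ 2 ≤ a ∧ a + 2 ≤ k) ∨
        (b = k + 2 ∧ (a = 2 ∨ (4 ≤ a ∧ a + 2 ≤ k))) ∨ (b = k + 2 ∧ a = k) ∨
        (b + 2 = 2 * k ∧ a + 2 = k) ∨ (b + 2 = 2 * k ∧ a = k) ∨ (b = 2 * k ∧ a = k) ∨
        (b + 2 = 2 * k ∧ a = k + 2) ∨ (b + 2 = 2 * k ∧ a + 4 = k) := by
  obtain ⟨c, rfl⟩ : ∃ c, b = a + c := ⟨b - a, by omega⟩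
  have e : a + c - a = c := by omega
  rw [e] at h2 p3
  have q1 := PC_not hk p1
  have q2 := PC_not hk p2
  have q3 := PC_not hk p3
  have g1 : a + (a + c) ≤ 3 * k := by omega
  have g2 : c + (a + c) ≤ 3 * k := by omega
  clear p1 p2 p3 h1 h2 e
  rcases q2 with d | d | d | d | d | d
  · exact Or.inl d
  · refine Or.inr (Or.inl ⟨d, ?_, ?_⟩)
    · rcases q3 with f | f | f | f | f | f <;> omega
    · rcases q1 with f | f | f | f | f | f <;> omega
  · have : (a = 2 ∨ (4 ≤ a ∧ a + 2 ≤ k)) ∨ a = k := by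
      rcases q1 with f | f | f | f | f | f
      · rcases q3 with g | g | g | g | g | g
        · left; right; omega
        · left; left; omega
        · omega
        · omega
        · omega
        · omega
      · right; exact f
      · omega
      · omega
      · omega
      · omega
    rcases this with f | f
    · exact Or.inr (Or.inr (Or.inl ⟨d, f⟩))
    · exact Or.inr (Or.inr (Or.inr (Or.inl ⟨d, f⟩)))
  · rcases q1 with f | f | f | f | f | f
    · rcases q3 with g | g | g | g | g | g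
      · omega
      · exact Or.inr (Or.inr (Or.inr (Or.inr (Or.inl ⟨d, by omega⟩))))
      · exact Or.inr (Or.inr (Or.inr (Or.inr (Or.inr (Or.inr (Or.inr (Or.inr
          ⟨d, by omega⟩)))))))
      · omega
      · omega
      · omega
    · exact Or.inr (Or.inr (Or.inr (Or.inr (Or.inr (Or.inl ⟨d, f⟩)))))
    · exact Or.inr (Or.inr (Or.inr (Or.inr (Or.inr (Or.inr (Or.inr (Or.inl ⟨d, f⟩)))))))
    · omega
    · omega
    · omega
  · have : a = k := by
      rcases q1 with f | f | f | f | f | f <;> omega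
    exact Or.inr (Or.inr (Or.inr (Or.inr (Or.inr (Or.inr (Or.inl ⟨d, this⟩))))))
  · omega

theorem uC {k a b : ℕ} (hk : 10 ≤ k) (ha : 0 < a) (hab : a < b) (hb : b + 2 ≤ k) :
    ∃ u, u < 3 * k ∧ A (PC k) 0 u ∧ A (PC k) u a ∧ ¬ A (PC k) u b := by
  by_cases a1 : a = 1
  · subst a1
    by_cases c1 : b ≤ k - 5
    · exact ⟨b + k + 2, by omega, A_lt (by omega) (PC3 (by omega) (by omega)),
        A_gt (by omega) (PC3 (by omega) (by omega)), nA_gt (by omega) (nPC4 hk (by omega))⟩
    · by_cases c2 : b ≤ k - 3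
      · exact ⟨b + k, by omega, A_lt (by omega) (PC3 (by omega) (by omega)),
          A_gt (by omega) (PC3 (by omega) (by omega)), nA_gt (by omega) (nPC3 hk (by omega))⟩
      · exact ⟨k + 4, by omega, A_lt (by omega) (PC3 (by omega) (by omega)),
          A_gt (by omega) (PC3 (by omega) (by omega)), nA_gt (by omega) (nPC1 hk (by omega))⟩
  · by_cases a3 : a = 3
    · subst a3
      by_cases c1 : b = 5
      · subst c1
        exact ⟨k + 7, by omega, A_lt (by omega) (PC3 (by omega) (by omega)),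
          A_gt (by omega) (PC3 (by omega) (by omega)), nA_gt (by omega) (nPC4 hk (by omega))⟩
      · refine ⟨k + 4, by omega, A_lt (by omega) (PC3 (by omega) (by omega)),
          A_gt (by omega) (PC2 (by omega)), nA_gt (by omega) ?_⟩
        by_cases c2 : b = 4
        · exact nPC3 hk (by omega)
        · exact nPC1 hk (by omega)
    · refine ⟨a + k - 1, by omega, A_lt (by omega) ?_,
        A_gt (by omega) (PC1 (by omega)), nA_gt (by omega) (nPC1 hk (by omega))⟩
      by_cases a2 : a = 2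
      · exact PC2 (by omega)
      · exact PC3 (by omega) (by omega)

theorem wC {k a b : ℕ} (hk : 10 ≤ k) (ha : 0 < a) (hab : a < b) (hb : b + 2 ≤ k) :
    ∃ w, w < 3 * k ∧ A (PC k) a w ∧ A (PC k) w b ∧ ¬ A (PC k) w 0 := by
  by_cases a1 : b - a = 1
  · by_cases c1 : b ≤ k - 5
    · exact ⟨2 * k - 2, by omega, A_lt (by omega) (PC3 (by omega) (by omega)),
        A_gt (by omega) (PC3 (by omega) (by omega)),
        nA_gt (by omega) (by unfold PC; omega)⟩
    · by_cases c2 : b ≤ k - 3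
      · exact ⟨2 * k, by omega, A_lt (by omega) (PC3 (by omega) (by omega)),
          A_gt (by omega) (PC3 (by omega) (by omega)), nA_gt (by omega) (nPC5 hk (by omega))⟩
      · exact ⟨3 * k - 6, by omega, A_lt (by omega) (PC3 (by omega) (by omega)),
          A_gt (by omega) (PC3 (by omega) (by omega)), nA_gt (by omega) (nPC2 hk (by omega))⟩
  · by_cases a3 : b - a = 3
    · by_cases c1 : b = 5
      · exact ⟨2 * k - 2, by omega, A_lt (by omega) (PC3 (by omega) (by omega)),
          A_gt (by omega) (PC3 (by omega) (by omega)),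
          nA_gt (by omega) (by unfold PC; omega)⟩
      · refine ⟨b + 2 * k - 4, by omega, A_lt (by omega) (PC4 (by omega)),
          A_gt (by omega) (PC3 (by omega) (by omega)), nA_gt (by omega) ?_⟩
        by_cases c2 : b = 4
        · exact nPC5 hk (by omega)
        · exact nPC2 hk (by omega)
    · refine ⟨a + 2 * k + 1, by omega, A_lt (by omega) (PC5 (by omega)),
        A_gt (by omega) ?_, nA_gt (by omega) (nPC2 hk (by omega))⟩
      by_cases a2 : b - a = 2
      · exact PC4 (by omega)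
      · exact PC3 (by omega) (by omega)

theorem witC {k a b : ℕ} (hk : 10 ≤ k) (ha : 0 < a) (hab : a < b)
    (h1 : a ≤ 3 * k - b) (h2 : b - a ≤ 3 * k - b)
    (p1 : ¬ PC k a) (p2 : ¬ PC k b) (p3 : ¬ PC k (b - a)) : Wit (PC k) (3 * k) a b := by
  rcases cases_C hk ha hab h1 h2 p1 p2 p3 with hc | hc | hc | hc | hc | hc | hc | hc | hc
  · obtain ⟨u, hu0, hu1, hu2, hu3⟩ := uC hk ha hab hc
    obtain ⟨w, hw0, hw1, hw2, hw3⟩ := wC hk ha hab hc
    exact ⟨u, w, hu0, hw0, Or.inl ⟨hu1, hu2, hu3, hw1, hw2, hw3⟩⟩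
  · obtain ⟨rfl, c1, c2⟩ := hc
    clear h1 h2 p1 p2 p3
    have hu : ∃ u, u < 3 * b ∧ A (PC b) 0 u ∧ A (PC b) u a ∧ ¬ A (PC b) u b := by
      by_cases a3 : a = 3
      · subst a3
        exact ⟨b + 4, by omega, A_lt (by omega) (PC3 (by omega) (by omega)),
          A_gt (by omega) (PC2 (by omega)), nA_gt (by omega) (nPC1 hk (by omega))⟩
      · refine ⟨a + b - 1, by omega, A_lt (by omega) ?_,
          A_gt (by omega) (PC1 (by omega)), nA_gt (by omega) (nPC1 hk (by omega))⟩
        by_cases a2 : a = 2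
        · exact PC2 (by omega)
        · exact PC3 (by omega) (by omega)
    have hw : ∃ w, w < 3 * b ∧ A (PC b) a w ∧ A (PC b) w b ∧ ¬ A (PC b) w 0 := by
      by_cases a3 : b - a = 3
      · exact ⟨3 * b - 4, by omega, A_lt (by omega) (PC4 (by omega)),
          A_gt (by omega) (PC3 (by omega) (by omega)), nA_gt (by omega) (nPC2 hk (by omega))⟩
      · refine ⟨a + 2 * b + 1, by omega, A_lt (by omega) (PC5 (by omega)),
          A_gt (by omega) ?_, nA_gt (by omega) (nPC2 hk (by omega))⟩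
        by_cases a2 : b - a = 2
        · exact PC4 (by omega)
        · exact PC3 (by omega) (by omega)
    obtain ⟨u, hu0, hu1, hu2, hu3⟩ := hu
    obtain ⟨w, hw0, hw1, hw2, hw3⟩ := hw
    exact ⟨u, w, hu0, hw0, Or.inl ⟨hu1, hu2, hu3, hw1, hw2, hw3⟩⟩
  · obtain ⟨rfl, hc⟩ := hc
    clear h1 h2 p1 p2 p3
    have e1 : PC k (a + k - 1 - 0) := by
      rcases hc with c | c
      · exact PC2 (by omega)
      · exact PC3 (by omega) (by omega)
    have e2 : PC k (a + 2 * k + 1 - (k + 2)) := by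
      rcases hc with c | c
      · exact PC2 (by omega)
      · exact PC3 (by omega) (by omega)
    exact ⟨a + k - 1, a + 2 * k + 1, by omega, by omega, Or.inl
      ⟨A_lt (by omega) e1, A_gt (by omega) (PC1 (by omega)),
        by
          rcases hc with c | c
          · exact nA_lt (by omega) (nPC1 hk (by omega))
          · rcases lt_trichotomy (a + k - 1) (k + 2) with h | h | h
            · omega
            · omega
            · exact nA_gt (by omega) (nPC1 hk (by omega)),
        A_lt (by omega) (PC5 (by omega)), A_gt (by omega) e2,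
        nA_gt (by omega) (nPC2 hk (by omega))⟩⟩
  · obtain ⟨rfl, rfl⟩ := hc
    exact ⟨2 * a - 1, 1, by omega, by omega, Or.inl
      ⟨A_lt (by omega) (PC4 (by omega)), A_gt (by omega) (PC1 (by omega)),
        nA_gt (by omega) (nPC1 hk (by omega)), A_gt (by omega) (PC1 (by omega)),
        A_lt (by omega) (PC2 (by omega)), nA_gt (by omega) (nPC1 hk (by omega))⟩⟩
  · obtain ⟨c1, c2⟩ := hc
    clear h1 h2 p1 p2 p3
    exact ⟨2 * k - 3, 3 * k - 3, by omega, by omega, Or.inl
      ⟨A_lt (by omega) (PC3 (by omega) (by omega)), A_gt (by omega) (PC1 (by omega)),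
        nA_lt (by omega) (nPC1 hk (by omega)), A_lt (by omega) (PC4 (by omega)),
        A_gt (by omega) (PC1 (by omega)), nA_gt (by omega) (nPC2 hk (by omega))⟩⟩
  · obtain ⟨c1, rfl⟩ := hc
    clear h1 h2 p1 p2 p3
    exact ⟨2 * a + 1, 1, by omega, by omega, Or.inl
      ⟨A_lt (by omega) (PC5 (by omega)), A_gt (by omega) (PC2 (by omega)),
        nA_gt (by omega) (nPC1 hk (by omega)), A_gt (by omega) (PC1 (by omega)),
        A_lt (by omega) (PC3 (by omega) (by omega)), nA_gt (by omega) (nPC1 hk (by omega))⟩⟩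
  · obtain ⟨rfl, rfl⟩ := hc
    clear h1 h2 p1 p2 p3
    exact ⟨2 * a - 1, 1, by omega, by omega, Or.inl
      ⟨A_lt (by omega) (PC4 (by omega)), A_gt (by omega) (PC1 (by omega)),
        nA_lt (by omega) (nPC1 hk (by omega)), A_gt (by omega) (PC1 (by omega)),
        A_lt (by omega) (PC4 (by omega)), nA_gt (by omega) (nPC1 hk (by omega))⟩⟩
  · obtain ⟨c1, rfl⟩ := hc
    clear h1 h2 p1 p2 p3
    exact ⟨2 * k + 1, k - 1, by omega, by omega, Or.inr (Or.inl
      ⟨A_lt (by omega) (PC1 (by omega)), A_gt (by omega) (PC5 (by omega)),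
        nA_gt (by omega) (nPC1 hk (by omega)), A_lt (by omega) (PC1 (by omega)),
        A_lt (by omega) (PC1 (by omega)), nA_lt (by omega) (nPC1 hk (by omega))⟩)⟩
  · obtain ⟨c1, c2⟩ := hc
    clear h1 h2 p1 p2 p3
    exact ⟨k - 1, 3 * k - 3, by omega, by omega, Or.inr (Or.inr
      ⟨A_lt (by omega) (PC1 (by omega)), A_lt (by omega) (PC1 (by omega)),
        nA_gt (by omega) (nPC1 hk (by omega)), A_lt (by omega) (PC1 (by omega)),
        A_gt (by omega) (PC5 (by omega)), nA_gt (by omega) (nPC2 hk (by omega))⟩)⟩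

theorem cnC {k d : ℕ} (hk : 10 ≤ k) (hd : 0 < d) (hd2 : 2 * d ≤ 3 * k) (hP : ¬ PC k d) :
    ∃ c, c < 3 * k ∧ A (PC k) 0 c ∧ A (PC k) c d := by
  have hc : d + 6 ≤ k ∨ d + 5 = k ∨ d + 4 = k ∨ d + 3 = k ∨ d + 2 = k ∨ d = k ∨
      d = k + 2 := by
    rcases PC_not hk hP with c | c | c | c | c | c <;> omega
  clear hP
  rcases hc with hc | hc | hc | hc | hc | hc | hc
  · exact ⟨k + 3 + d, by omega, A_lt (by omega) (PC3 (by omega) (by omega)),
      A_gt (by omega) (PC3 (by omega) (by omega))⟩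
  · exact ⟨2 * k - 4, by omega, A_lt (by omega) (PC3 (by omega) (by omega)),
      A_gt (by omega) (PC2 (by omega))⟩
  · exact ⟨2 * k - 3, by omega, A_lt (by omega) (PC3 (by omega) (by omega)),
      A_gt (by omega) (PC2 (by omega))⟩
  · exact ⟨2 * k - 4, by omega, A_lt (by omega) (PC3 (by omega) (by omega)),
      A_gt (by omega) (PC1 (by omega))⟩
  · exact ⟨2 * k - 3, by omega, A_lt (by omega) (PC3 (by omega) (by omega)),
      A_gt (by omega) (PC1 (by omega))⟩
  · exact ⟨2 * k - 1, by omega, A_lt (by omega) (PC4 (by omega)),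
      A_gt (by omega) (PC1 (by omega))⟩
  · exact ⟨2 * k + 1, by omega, A_lt (by omega) (PC5 (by omega)),
      A_gt (by omega) (PC1 (by omega))⟩

theorem coreC {k : ℕ} (hk : 10 ≤ k) : Core (3 * k) (PC k) where
  pos := by intro d; unfold PC; omega
  symm := by
    intro d h
    rcases h with h | h | ⟨h, h'⟩ | h | h
    · exact PC5 (by omega)
    · exact PC4 (by omega)
    · exact PC3 (by omega) (by omega)
    · exact PC2 (by omega)
    · exact PC1 (by omega)
  sf := by
    intro d e hd he hde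
    rcases hd with h | h | ⟨h, h'⟩ | h | h <;> rcases he with g | g | ⟨g, g'⟩ | g | g <;>
      unfold PC at hde <;> omega
  cn := fun d hd hd2 hP => cnC hk hd hd2 hP
  ne := ⟨1, by omega, by omega, nPC1 hk (by omega)⟩
  wit := fun _ _ ha hab _ h1 h2 p1 p2 p3 => witC hk ha hab h1 h2 p1 p2 p3

/-! ### Small orders, checked by computation -/

/-- residues from a bit mask -/
def PM (M d : ℕ) : Prop := Nat.testBit M d = true

def Ab (M i j : ℕ) : Bool := (decide (i < j) && Nat.testBit M (j - i)) ||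
  (decide (j < i) && Nat.testBit M (i - j))

theorem Ab_iff (M i j : ℕ) : Ab M i j = true ↔ A (PM M) i j := by
  simp [Ab, A, PM, Bool.or_eq_true, Bool.and_eq_true, decide_eq_true_eq]

def chkPos (n M : ℕ) : Bool := !(Nat.testBit M 0) && decide (M < 2 ^ n)

def chkSymm (n M : ℕ) : Bool := (List.range n).all fun d =>
  !(Nat.testBit M d) || Nat.testBit M (n - d)

def chkSf (n M : ℕ) : Bool := (List.range n).all fun d => !(Nat.testBit M d) ||
  (List.range n).all fun e => !(Nat.testBit M e) || !(Nat.testBit M (d + e))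

def chkCn (n M : ℕ) : Bool := (List.range n).all fun d => (decide (d = 0)) ||
  Nat.testBit M d || (List.range n).any fun c => Ab M 0 c && Ab M c d

def chkWit (n M : ℕ) : Bool := (List.range n).all fun a => (decide (a = 0)) || Nat.testBit M a ||
  (List.range n).all fun b => !(decide (a < b)) || Nat.testBit M b || Nat.testBit M (b - a) ||
    (((List.range n).any fun u => Ab M 0 u && Ab M u a && !(Ab M u b)) &&
      ((List.range n).any fun w => Ab M a w && Ab M w b && !(Ab M w 0))) ||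
    (((List.range n).any fun u => Ab M a u && Ab M u 0 && !(Ab M u b)) &&
      ((List.range n).any fun w => Ab M 0 w && Ab M w b && !(Ab M w a))) ||
    (((List.range n).any fun u => Ab M 0 u && Ab M u b && !(Ab M u a)) &&
      ((List.range n).any fun w => Ab M b w && Ab M w a && !(Ab M w 0)))

def chkNe (n M : ℕ) : Bool := (List.range n).any fun d => !(decide (d = 0)) &&
  !(Nat.testBit M d)

def chk (n M : ℕ) : Bool := chkPos n M && chkSymm n M && chkSf n M && chkCn n M && chkWit n M &&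
  chkNe n M

theorem core_of_chk {n M : ℕ} (h : chk n M = true) : Core n (PM M) := by
  simp only [chk, Bool.and_eq_true] at h
  obtain ⟨⟨⟨⟨⟨hpos, hsymm⟩, hsf⟩, hcn⟩, hwit⟩, hne⟩ := h
  simp only [chkPos, Bool.and_eq_true, Bool.not_eq_true', decide_eq_true_eq] at hpos
  simp only [chkSymm, List.all_eq_true, List.mem_range, Bool.or_eq_true,
    Bool.not_eq_true'] at hsymm
  simp only [chkSf, List.all_eq_true, List.mem_range, Bool.or_eq_true,
    Bool.not_eq_true'] at hsf
  simp only [chkCn, List.all_eq_true, List.any_eq_true, List.mem_range, Bool.or_eq_true,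
    Bool.and_eq_true, decide_eq_true_eq] at hcn
  simp only [chkWit, List.all_eq_true, List.any_eq_true, List.mem_range, Bool.or_eq_true,
    Bool.and_eq_true, decide_eq_true_eq, Bool.not_eq_true', decide_eq_false_iff_not] at hwit
  simp only [chkNe, List.any_eq_true, List.mem_range, Bool.and_eq_true, Bool.not_eq_true',
    decide_eq_false_iff_not] at hne
  have pos : ∀ d, PM M d → 0 < d ∧ d < n := by
    intro d hd
    unfold PM at hd
    refine ⟨?_, ?_⟩
    · rw [Nat.pos_iff_ne_zero]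
      rintro rfl
      rw [hd] at hpos
      exact Bool.noConfusion hpos.1
    · by_contra hlt
      have := Nat.testBit_lt_two_pow (x := M) (i := d) (lt_of_lt_of_le hpos.2
        (Nat.pow_le_pow_right (by norm_num) (not_lt.1 hlt)))
      rw [hd] at this
      exact Bool.noConfusion this
  have nb : ∀ i j, Ab M i j = false → ¬ A (PM M) i j := by
    intro i j hf hA
    rw [← Ab_iff, hf] at hA
    exact Bool.noConfusion hA
  refine ⟨pos, ?_, ?_, ?_, ?_, ?_⟩
  · intro d hd
    rcases hsymm d (pos d hd).2 with h1 | h1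
    · unfold PM at hd; rw [h1] at hd; exact Bool.noConfusion hd
    · exact h1
  · intro d e hd he hde
    unfold PM at hd he hde
    rcases hsf d (pos d hd).2 with h1 | h1
    · rw [h1] at hd; exact Bool.noConfusion hd
    · rcases h1 e (pos e he).2 with h2 | h2
      · rw [h2] at he; exact Bool.noConfusion he
      · rw [h2] at hde; exact Bool.noConfusion hde
  · intro d hd hd2 hP
    rcases hcn d (by omega) with (h1 | h1) | ⟨c, hc, h1, h2⟩
    · omega
    · exact absurd h1 hP
    · exact ⟨c, hc, (Ab_iff M 0 c).1 h1, (Ab_iff M c d).1 h2⟩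
  · obtain ⟨d, hd, h1, h2⟩ := hne
    refine ⟨d, by omega, hd, ?_⟩
    unfold PM
    rw [h2]
    exact Bool.noConfusion
  · intro a b ha hab hb _ _ p1 p2 p3
    rcases hwit a (by omega) with (h1 | h1) | h1
    · omega
    · exact absurd h1 p1
    · rcases h1 b hb with ((((h2 | h2) | h2) | h2) | h2) | h2
      · exact absurd hab h2
      · exact absurd h2 p2
      · exact absurd h2 p3
      · obtain ⟨⟨u, hu, ⟨q1, q2⟩, q3⟩, ⟨w, hw, ⟨q4, q5⟩, q6⟩⟩ := h2
        rw [Ab_iff] at q1 q2 q4 q5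
        exact ⟨u, w, hu, hw, Or.inl ⟨q1, q2, nb _ _ q3, q4, q5, nb _ _ q6⟩⟩
      · obtain ⟨⟨u, hu, ⟨q1, q2⟩, q3⟩, ⟨w, hw, ⟨q4, q5⟩, q6⟩⟩ := h2
        rw [Ab_iff] at q1 q2 q4 q5
        exact ⟨u, w, hu, hw, Or.inr (Or.inl ⟨q1, q2, nb _ _ q3, q4, q5, nb _ _ q6⟩)⟩
      · obtain ⟨⟨u, hu, ⟨q1, q2⟩, q3⟩, ⟨w, hw, ⟨q4, q5⟩, q6⟩⟩ := h2
        rw [Ab_iff] at q1 q2 q4 q5
        exact ⟨u, w, hu, hw, Or.inr (Or.inr ⟨q1, q2, nb _ _ q3, q4, q5, nb _ _ q6⟩)⟩

end Families

section Small

theorem core12 : Core 12 (PM 1548) := core_of_chk (by decide +kernel)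

theorem core13 : Core 13 (PM 720) := core_of_chk (by decide +kernel)

theorem core18 : Core 18 (PM 57400) := core_of_chk (by decide +kernel)

theorem core21 : Core 21 (PM 44352) := core_of_chk (by decide +kernel)

theorem core24 : Core 24 (PM 178816) := core_of_chk (by decide +kernel)

theorem core27 : Core 27 (PM 718080) := core_of_chk (by decide +kernel)

/-- Existence for every `n ≥ 11` other than `15`. -/
theorem exists_core {n : ℕ} (hn : 11 ≤ n) (h15 : n ≠ 15) : ∃ P : ℕ → Prop, Core n P := by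
  have h3 : n % 3 = 0 ∨ n % 3 = 1 ∨ n % 3 = 2 := by omega
  rcases h3 with h3 | h3 | h3
  · obtain ⟨k, rfl⟩ : ∃ k, n = 3 * k := ⟨n / 3, by omega⟩
    by_cases hk : 10 ≤ k
    · exact ⟨_, coreC hk⟩
    · have : k = 4 ∨ k = 6 ∨ k = 7 ∨ k = 8 ∨ k = 9 := by omega
      rcases this with rfl | rfl | rfl | rfl | rfl
      · exact ⟨_, core12⟩
      · exact ⟨_, core18⟩
      · exact ⟨_, core21⟩
      · exact ⟨_, core24⟩
      · exact ⟨_, core27⟩
  · obtain ⟨k, rfl⟩ : ∃ k, n = 3 * k + 1 := ⟨n / 3, by omega⟩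
    by_cases hk : 5 ≤ k
    · exact ⟨_, coreB hk⟩
    · have : k = 4 := by omega
      subst this
      exact ⟨_, core13⟩
  · obtain ⟨k, rfl⟩ : ∃ k, n = 3 * k - 1 := ⟨n / 3 + 1, by omega⟩
    exact ⟨_, coreA (by omega)⟩

end Small

section Fifteen

def g (b1 b2 b3 b4 b5 b6 b7 : Bool) (x : ℕ) : Bool :=
  match x with
  | 1 => b1 | 2 => b2 | 3 => b3 | 4 => b4 | 5 => b5 | 6 => b6 | 7 => b7
  | 8 => b7 | 9 => b6 | 10 => b5 | 11 => b4 | 12 => b3 | 13 => b2 | 14 => b1
  | _ => false

/-- Either there is a triangle, or the diameter is not two, or the set is invariant under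
translation by `5`. -/
def check15 (f : ℕ → Bool) : Bool :=
  ((List.range 15).any fun a => (List.range 15).any fun b => f a && f b && f ((a + b) % 15)) ||
  ((List.range 15).any fun x => !(decide (x = 0)) && !(f x) && (List.range 15).all fun w =>
    !(f w && f ((x + 15 - w) % 15))) ||
  ((List.range 15).all fun x => f ((x + 5) % 15) == f x)

theorem check15_all : ∀ b1 b2 b3 b4 b5 b6 b7 : Bool,
    check15 (g b1 b2 b3 b4 b5 b6 b7) = true := by decide +kernel

theorem exists_mid {V : Type*} {G : SimpleGraph V} {u y : V} (p : G.Walk u y) (hp : p.length ≤ 2)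
    (hne : u ≠ y) (hadj : ¬ G.Adj u y) : ∃ w, G.Adj u w ∧ G.Adj w y := by
  cases p with
  | nil => exact absurd rfl hne
  | cons h1 q =>
    cases q with
    | nil => exact absurd h1 hadj
    | cons h2 r =>
      cases r with
      | cons h3 r' =>
        simp only [Walk.length_cons] at hp
        omega
      | nil => exact ⟨_, h1, h2⟩

theorem not_fifteen (C : Set (ZMod 15)) (hmp : mp (circulantGraph C) = 2)
    (hd : (circulantGraph C).diam = 2) : False := by
  classical
  set G := circulantGraph C with hG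
  have hpath := (mp_le_two_iff (G := G)).1 hmp.le
  -- adjacency depends only on the difference
  have hadj : ∀ u v : ZMod 15, G.Adj u v ↔ G.Adj 0 (v - u) := by
    intro u v
    have := circulantGraph_adj_translate (s := C) (u := 0) (v := v - u) (d := u)
    rw [zero_add, sub_add_cancel] at this
    exact this
  have hneg : ∀ x : ZMod 15, G.Adj 0 x ↔ G.Adj 0 (-x) := by
    intro x
    rw [G.adj_comm, hadj x 0, zero_sub]
  let M : ℕ → Bool := fun x => decide (G.Adj 0 (x : ZMod 15))
  have hM : ∀ x : ℕ, M x = true ↔ G.Adj 0 (x : ZMod 15) := fun x => decide_eq_true_iff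
  have hMneg : ∀ x y : ℕ, (y : ZMod 15) = -(x : ZMod 15) → M y = M x := by
    intro x y hxy
    rw [Bool.eq_iff_iff, hM, hM, hxy]
    exact (hneg _).symm
  have hM0 : M 0 = false := by
    rw [Bool.eq_false_iff]
    intro h
    rw [hM] at h
    exact h.ne (by simp)
  have hg : ∀ x < 15, M x = g (M 1) (M 2) (M 3) (M 4) (M 5) (M 6) (M 7) x := by
    intro x hx
    interval_cases x
    · exact hM0
    · rfl
    · rfl
    · rfl
    · rfl
    · rfl
    · rfl
    · rfl
    · exact hMneg 7 8 (by decide)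
    · exact hMneg 6 9 (by decide)
    · exact hMneg 5 10 (by decide)
    · exact hMneg 4 11 (by decide)
    · exact hMneg 3 12 (by decide)
    · exact hMneg 2 13 (by decide)
    · exact hMneg 1 14 (by decide)
  have key := check15_all (M 1) (M 2) (M 3) (M 4) (M 5) (M 6) (M 7)
  simp only [check15, Bool.or_eq_true, List.any_eq_true, List.all_eq_true, List.mem_range,
    Bool.and_eq_true, Bool.not_eq_true', beq_iff_eq, decide_eq_false_iff_not] at key
  rcases key with (⟨a, ha, b, hb, ⟨h1, h2⟩, h3⟩ | ⟨x, hx, ⟨hx0, hx1⟩, hw⟩) | htw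
  · -- triangle
    rw [← hg a ha, hM] at h1
    rw [← hg b hb, hM] at h2
    rw [← hg _ (Nat.mod_lt _ (by norm_num)), hM] at h3
    have e : (((a + b) % 15 : ℕ) : ZMod 15) = (a : ZMod 15) + b := by
      rw [ZMod.natCast_mod, Nat.cast_add]
    rw [e] at h3
    have h4 : G.Adj (a : ZMod 15) ((a : ZMod 15) + b) := by
      rw [hadj, add_sub_cancel_left]; exact h2
    exact not_onInducedPath_triangle h1 h4 h3 (hpath _ _ _ h1.ne h4.ne h3.ne)
  · -- diameter
    rw [← hg x hx, Bool.eq_false_iff, ne_eq, hM] at hx1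
    have hne : G.ediam ≠ ⊤ := ediam_ne_top_of_diam_ne_zero (by rw [hd]; norm_num)
    have hconn : G.Connected := connected_of_ediam_ne_top hne
    have hdist : G.dist 0 (x : ZMod 15) ≤ 2 := hd ▸ dist_le_diam hne
    obtain ⟨p, hp⟩ := hconn.exists_walk_length_eq_dist 0 (x : ZMod 15)
    have hxne : (0 : ZMod 15) ≠ (x : ZMod 15) := by
      intro he
      have := congrArg ZMod.val he
      rw [ZMod.val_natCast_of_lt hx, ZMod.val_zero] at this
      exact hx0 this.symm
    obtain ⟨w, h1, h2⟩ := exists_mid p (by omega) hxne hx1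
    have hwx := hw w.val (ZMod.val_lt w)
    rw [Bool.and_eq_false_iff] at hwx
    rcases hwx with h4 | h4
    · rw [← hg _ (ZMod.val_lt w), Bool.eq_false_iff, ne_eq, hM, ZMod.natCast_zmod_val] at h4
      exact h4 h1
    · rw [← hg _ (Nat.mod_lt _ (by norm_num)), Bool.eq_false_iff, ne_eq, hM] at h4
      apply h4
      have e : (((x + 15 - w.val) % 15 : ℕ) : ZMod 15) = (x : ZMod 15) - w := by
        have hlt : w.val < 15 := ZMod.val_lt w
        have e15 : ((15 : ℕ) : ZMod 15) = 0 := ZMod.natCast_self 15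
        rw [ZMod.natCast_mod, Nat.cast_sub (by omega), Nat.cast_add,
          ZMod.natCast_zmod_val, e15, add_zero]
      rw [e, ← hadj]
      exact h2
  · -- twins
    have htw' : ∀ v : ZMod 15, G.Adj 0 (v + 5) ↔ G.Adj 0 v := by
      intro v
      have h1 := htw v.val (ZMod.val_lt v)
      rw [← hg _ (Nat.mod_lt _ (by norm_num)), ← hg _ (ZMod.val_lt v), Bool.eq_iff_iff, hM, hM,
        ZMod.natCast_mod, Nat.cast_add, ZMod.natCast_zmod_val] at h1
      exact_mod_cast h1
    have t1 : ∀ v : ZMod 15, G.Adj v 0 ↔ G.Adj v 10 := by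
      intro v
      rw [hadj v 0, hadj v 10, ← htw' (0 - v), ← htw' (0 - v + 5)]
      have : 0 - v + 5 + 5 = 10 - v := by ring
      rw [this]
    have t2 : ∀ v : ZMod 15, G.Adj v 0 ↔ G.Adj v 5 := by
      intro v
      rw [hadj v 0, hadj v 5, ← htw' (0 - v)]
      have : 0 - v + 5 = 5 - v := by ring
      rw [this]
    exact not_onInducedPath_twins (x := (0 : ZMod 15)) (y := 10) (z := 5) (by decide)
      (by decide) (by decide) t1 t2 (hpath 0 10 5 (by decide) (by decide) (by decide))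

end Fifteen

/-- **Main theorem.** For `n ≥ 11`, there is a circulant graph of order `n` with monophonic
position number `2` and diameter `2` if and only if `n ≠ 15`. -/
theorem result (n : ℕ) (hn : 11 ≤ n) :
    (∃ C : Set (ZMod n), mp (circulantGraph C) = 2 ∧ (circulantGraph C).diam = 2) ↔ n ≠ 15 := by
  constructor
  · rintro ⟨C, h1, h2⟩ rfl
    exact not_fifteen C h1 h2
  · intro h15
    obtain ⟨P, hP⟩ := exists_core hn h15
    exact ⟨conn n P, mp_eq_two (by omega) hP, diam_eq_two (by omega) hP⟩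

end Pool.Agent.Results.MP_1f00fa_co.AllOrdersExceptFifteen
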