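import Mathlib

/-!
MP_1f00fa_co, Q1: no circulant graph of order 15 has monophonic position number 2 and
diameter 2.
-/

set_option autoImplicit false

namespace Pool.Agent.Results.MP_1f00fa_co.OrderFifteen

/-- The circulant graph `Cay(Z_n, C)` for a symmetric connection set `C` without `0`:
`i` and `j` are adjacent exactly when `j - i ∈ C`. -/
def circulant (n : ℕ) (C : Set (ZMod n)) (hC : ∀ c ∈ C, -c ∈ C) (h0 : (0 : ZMod n) ∉ C) :
    SimpleGraph (ZMod n) where
  Adj i j := j - i ∈ C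
  symm := ⟨fun i j h => by
    have := hC _ h
    rwa [neg_sub] at this⟩
  loopless := ⟨fun i h => h0 (by simpa using h)⟩

/-- A monophonic (induced) path of `G`, as the list of its vertices in order: the vertices are
distinct, consecutive ones are adjacent, and there are no other adjacencies. -/
def IsMonophonicPath {V : Type} (G : SimpleGraph V) (l : List V) : Prop :=
  l.Nodup ∧ l.IsChain G.Adj ∧
    ∀ (i j : ℕ) (hi : i < l.length) (hj : j < l.length), i + 1 < j → ¬ G.Adj l[i] l[j]

/-- A monophonic position set: no three distinct vertices of `S` lie on a common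
monophonic path. -/
def IsMonophonicPositionSet {V : Type} (G : SimpleGraph V) (S : Finset V) : Prop :=
  ∀ a ∈ S, ∀ b ∈ S, ∀ c ∈ S, a ≠ b → b ≠ c → a ≠ c →
    ¬ ∃ l : List V, IsMonophonicPath G l ∧ a ∈ l ∧ b ∈ l ∧ c ∈ l

/-- The monophonic position number of a finite graph: the largest size of a monophonic
position set. -/
noncomputable def mp {V : Type} (G : SimpleGraph V) : ℕ :=
  sSup {k | ∃ S : Finset V, S.card = k ∧ IsMonophonicPositionSet G S}

/-! ### The search -/

/-- neighbourhood of `0` as a bit mask, from the 7 bits of `k` -/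
def row0 (k : ℕ) : ℕ :=
  (List.range 7).foldl (fun a i => if k.testBit i then a + 2 ^ (i + 1) + 2 ^ (14 - i) else a) 0

/-- rotation of a 15-bit mask -/
def rot (m v : ℕ) : ℕ := ((m <<< v) ||| (m >>> (15 - v))) &&& 32767

/-- `bad f m last forb need`: no induced continuation of a path ending at `last` and avoiding
`forb` covers all of `need`. -/
def bad : ℕ → ℕ → ℕ → ℕ → ℕ → Bool
  | 0, _, _, forb, need => (need &&& forb) != 0
  | f + 1, m, last, forb, need =>
    if need = 0 then false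
    else if (need &&& forb) != 0 then true
    else (List.range 15).all fun y =>
      !(rot m last).testBit y || forb.testBit y ||
        bad f m y (forb ||| rot m last) ((need ||| 2 ^ y) ^^^ 2 ^ y)

/-- certificates -/
def cert : List (ℕ × ℕ) :=
  [(1, 0), (3, 0), (1, 0), (5, 0), (1, 0), (5, 0), (7, 0), (7, 0), (1, 0), (6, 0), (1, 0), (1, 2),
   (2, 0), (1, 4), (2, 4), (1, 2), (1, 0), (3, 0), (1, 0), (1, 2), (1, 0), (5, 10), (2, 5), (1, 2),
   (2, 0), (1, 5), (2, 4), (1, 2), (5, 10), (1, 4), (2, 4), (1, 2), (1, 0), (4, 0), (1, 0), (1, 2),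
   (1, 0), (3, 6), (3, 6), (1, 2), (1, 0), (5, 10), (1, 0), (1, 2), (3, 6), (1, 4), (2, 4), (1, 2),
   (2, 0), (1, 6), (5, 10), (1, 2), (3, 6), (1, 6), (2, 5), (1, 2), (4, 9), (1, 5), (2, 4), (1, 2),
   (3, 6), (1, 4), (2, 4), (1, 2), (2, 0), (3, 0), (3, 0), (1, 2), (2, 0), (1, 8), (5, 10), (1, 2),
   (2, 0), (1, 8), (2, 4), (1, 2), (2, 0), (1, 4), (2, 4), (1, 2), (4, 0), (1, 8), (2, 7), (1, 2),
   (3, 8), (1, 8), (2, 5), (1, 2), (4, 8), (1, 5), (2, 4), (1, 2), (3, 7), (1, 4), (2, 4), (1, 2),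
   (4, 0), (4, 0), (2, 8), (1, 2), (3, 6), (1, 7), (2, 8), (1, 2), (4, 8), (1, 7), (2, 4), (1, 2),
   (3, 6), (1, 4), (2, 4), (1, 2), (5, 10), (1, 6), (2, 7), (1, 2), (3, 6), (1, 6), (2, 5), (1, 2),
   (4, 8), (1, 5), (2, 4), (1, 2), (3, 6), (1, 4), (2, 4), (1, 2)]

/-- far vertex certificate -/
def far (m b : ℕ) : Bool :=
  decide (0 < b) && decide (b < 15) && !m.testBit b && ((m &&& rot m b) == 0)

/-- triple certificate -/
def trip (m b c : ℕ) : Bool :=
  decide (0 < b) && decide (b < c) && decide (c < 15) &&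
    bad 16 m 0 1 (2 ^ b ||| 2 ^ c) && bad 16 m b (2 ^ b) (2 ^ 0 ||| 2 ^ c) &&
    bad 16 m c (2 ^ c) (2 ^ 0 ||| 2 ^ b)

/-- the check -/
def check (k : ℕ) : Bool :=
  let m := row0 k
  let p := cert.getD k (0, 0)
  if p.2 = 0 then far m p.1 else trip m p.1 p.2

theorem check_all : ∀ k : Fin 128, check k.1 = true := by decide +kernel

theorem rot_row0 : ∀ k : Fin 128, ∀ v w : Fin 15,
    (rot (row0 k.1) v.1).testBit w.1 = (row0 k.1).testBit ((w.1 + 15 - v.1) % 15) := by
  decide +kernel

/-! ### Soundness -/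

theorem exists_testBit {a : ℕ} (h : a ≠ 0) : ∃ x, a.testBit x = true := by
  by_contra hc
  push Not at hc
  exact h (Nat.eq_of_testBit_eq fun i => by simpa using hc i)

/-- `l` is an induced continuation of a path at `x` -/
def Ind (m : ℕ) : ℕ → List ℕ → Prop
  | _, [] => True
  | x, y :: t => (rot m x).testBit y = true ∧ (∀ z ∈ t, (rot m x).testBit z = false) ∧ Ind m y t

theorem bad_sound (m : ℕ) : ∀ (f last forb need : ℕ), bad f m last forb need = true →
    ∀ l : List ℕ, (∀ z ∈ l, z < 15) → Ind m last l → (∀ z ∈ l, forb.testBit z = false) →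
      ∃ x, need.testBit x = true ∧ x ∉ l := by
  have key : ∀ forb need : ℕ, ((need &&& forb) != 0) = true → ∀ l : List ℕ,
      (∀ z ∈ l, forb.testBit z = false) → ∃ x, need.testBit x = true ∧ x ∉ l := by
    intro forb need h l hl
    have h' : (need &&& forb) ≠ 0 := by simpa using h
    obtain ⟨x, hx⟩ := exists_testBit h'
    rw [Nat.testBit_and, Bool.and_eq_true] at hx
    refine ⟨x, hx.1, fun hxl => ?_⟩
    rw [hl x hxl] at hx
    exact absurd hx.2 (by simp)
  intro f
  induction f with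
  | zero =>
    intro last forb need h l _ _ hl
    exact key forb need h l hl
  | succ f ih =>
    intro last forb need h l h15 hind hl
    rw [bad] at h
    split_ifs at h with h1 h2
    · exact key forb need h2 l hl
    · cases l with
      | nil =>
        obtain ⟨x, hx⟩ := exists_testBit h1
        exact ⟨x, hx, by simp⟩
      | cons y t =>
        rw [List.all_eq_true] at h
        have hy := h y (List.mem_range.2 (h15 y (by simp)))
        obtain ⟨hi1, hi2, hi3⟩ := hind
        rw [hi1, hl y (by simp)] at hy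
        simp only [Bool.not_true, Bool.false_or] at hy
        obtain ⟨x, hx1, hx2⟩ := ih _ _ _ hy t (fun z hz => h15 z (by simp [hz])) hi3
          (fun z hz => by
            rw [Nat.testBit_or, hl z (by simp [hz]), hi2 z hz]; rfl)
        rw [Nat.testBit_xor, Nat.testBit_or, Nat.testBit_two_pow] at hx1
        refine ⟨x, ?_, ?_⟩
        · by_cases hxy : y = x
          · simp [hxy] at hx1
          · simpa [hxy] using hx1
        · intro hmem
          rcases List.mem_cons.1 hmem with rfl | hmem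
          · simp at hx1
          · exact hx2 hmem

/-- induced path lists -/
def IndL (m : ℕ) : List ℕ → Prop
  | [] => True
  | x :: t => Ind m x t

theorem first_occ (m : ℕ) (N : ℕ → Prop) (hN : ∃ x, N x) : ∀ L : List ℕ, IndL m L → L.Nodup →
    (∀ x, N x → x ∈ L) → (∀ z ∈ L, z < 15) →
    ∃ s t, N s ∧ Ind m s t ∧ s ∉ t ∧ (∀ x, N x → x ≠ s → x ∈ t) ∧ (∀ z ∈ t, z < 15) := by
  intro L
  induction L with
  | nil =>
    intro _ _ h _
    obtain ⟨x, hx⟩ := hN
    exact absurd (h x hx) (by simp)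
  | cons a t ih =>
    intro hL hnd hcov h15
    by_cases ha : N a
    · refine ⟨a, t, ha, hL, (List.nodup_cons.1 hnd).1, fun x hx hne => ?_,
        fun z hz => h15 z (by simp [hz])⟩
      rcases List.mem_cons.1 (hcov x hx) with h | h
      · exact absurd h hne
      · exact h
    · refine ih ?_ (List.nodup_cons.1 hnd).2 (fun x hx => ?_) (fun z hz => h15 z (by simp [hz]))
      · cases t with
        | nil => trivial
        | cons y t' => exact hL.2.2
      · rcases List.mem_cons.1 (hcov x hx) with h | h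
        · exact absurd (h ▸ hx) ha
        · exact h

theorem trip_sound (m b c : ℕ) (h : trip m b c = true) : ∀ L : List ℕ, IndL m L → L.Nodup →
    (∀ z ∈ L, z < 15) → ¬ (0 ∈ L ∧ b ∈ L ∧ c ∈ L) := by
  intro L hL hnd h15 ⟨m0, mb, mc⟩
  simp only [trip, Bool.and_eq_true, decide_eq_true_eq] at h
  obtain ⟨⟨⟨⟨⟨hb0, hbc⟩, hc⟩, h1⟩, h2⟩, h3⟩ := h
  obtain ⟨s, t, hs, hind, hst, hcov, ht15⟩ := first_occ m (fun x => x = 0 ∨ x = b ∨ x = c)
    ⟨0, Or.inl rfl⟩ L hL hnd (by rintro x (rfl | rfl | rfl) <;> assumption) h15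
  have tb : ∀ u v x : ℕ, (2 ^ u ||| 2 ^ v).testBit x = true → x = u ∨ x = v := by
    intro u v x hx
    rw [Nat.testBit_or, Nat.testBit_two_pow, Nat.testBit_two_pow] at hx
    simp only [Bool.or_eq_true, decide_eq_true_eq] at hx
    rcases hx with h | h
    · exact Or.inl h.symm
    · exact Or.inr h.symm
  have fb : ∀ s : ℕ, s ∉ t → ∀ z ∈ t, (2 ^ s).testBit z = false := by
    intro s hs z hz
    rw [Nat.testBit_two_pow]
    simp only [decide_eq_false_iff_not]
    rintro rfl
    exact hs hz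
  rcases hs with rfl | rfl | rfl
  · obtain ⟨x, hx, hxt⟩ := bad_sound m 16 0 1 _ h1 t ht15 hind
      (by simpa using fb 0 hst)
    rcases tb b c x hx with rfl | rfl
    · exact hxt (hcov _ (by simp) (by omega))
    · exact hxt (hcov _ (by simp) (by omega))
  · obtain ⟨x, hx, hxt⟩ := bad_sound m 16 s (2 ^ s) _ h2 t ht15 hind (fb s hst)
    rcases tb 0 c x hx with rfl | rfl
    · exact hxt (hcov _ (by simp) (by omega))
    · exact hxt (hcov _ (by simp) (by omega))
  · obtain ⟨x, hx, hxt⟩ := bad_sound m 16 s (2 ^ s) _ h3 t ht15 hind (fb s hst)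
    rcases tb 0 b x hx with rfl | rfl
    · exact hxt (hcov _ (by simp) (by omega))
    · exact hxt (hcov _ (by simp) (by omega))

/-! ### Encoding of a connection set -/

/-- selection of a bit by distance from `0` -/
def sel (b1 b2 b3 b4 b5 b6 b7 : Bool) : ℕ → Bool
  | 1 => b1 | 2 => b2 | 3 => b3 | 4 => b4 | 5 => b5 | 6 => b6 | 7 => b7
  | 8 => b7 | 9 => b6 | 10 => b5 | 11 => b4 | 12 => b3 | 13 => b2 | 14 => b1
  | _ => false

theorem encode : ∀ b1 b2 b3 b4 b5 b6 b7 : Bool, ∃ k : Fin 128, ∀ d : Fin 15,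
    (row0 k.1).testBit d.1 = sel b1 b2 b3 b4 b5 b6 b7 d.1 := by
  have h : ∀ b1 b2 b3 b4 b5 b6 b7 : Bool, ∀ d : Fin 15,
    (row0 (b1.toNat + 2 * b2.toNat + 4 * b3.toNat + 8 * b4.toNat + 16 * b5.toNat
      + 32 * b6.toNat + 64 * b7.toNat)).testBit d.1 = sel b1 b2 b3 b4 b5 b6 b7 d.1 := by
    decide +kernel
  intro b1 b2 b3 b4 b5 b6 b7
  refine ⟨⟨b1.toNat + 2 * b2.toNat + 4 * b3.toNat + 8 * b4.toNat + 16 * b5.toNat
      + 32 * b6.toNat + 64 * b7.toNat, ?_⟩, fun d => h b1 b2 b3 b4 b5 b6 b7 d⟩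
  have := b1.toNat_le
  have := b2.toNat_le
  have := b3.toNat_le
  have := b4.toNat_le
  have := b5.toNat_le
  have := b6.toNat_le
  have := b7.toNat_le
  omega

theorem exists_code (C : Set (ZMod 15)) (hC : ∀ c ∈ C, -c ∈ C) (h0 : (0 : ZMod 15) ∉ C) :
    ∃ k : Fin 128, ∀ d : ZMod 15, (row0 k.1).testBit d.val = true ↔ d ∈ C := by
  classical
  obtain ⟨k, hk⟩ := encode (decide ((1 : ZMod 15) ∈ C)) (decide ((2 : ZMod 15) ∈ C))
    (decide ((3 : ZMod 15) ∈ C)) (decide ((4 : ZMod 15) ∈ C)) (decide ((5 : ZMod 15) ∈ C))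
    (decide ((6 : ZMod 15) ∈ C)) (decide ((7 : ZMod 15) ∈ C))
  have hs : ∀ c : ZMod 15, c ∈ C ↔ -c ∈ C := fun c => ⟨hC c, fun h => by simpa using hC _ h⟩
  have e14 : ((14 : ZMod 15) ∈ C) ↔ (1 : ZMod 15) ∈ C := by rw [hs 14]; exact Iff.rfl
  have e13 : ((13 : ZMod 15) ∈ C) ↔ (2 : ZMod 15) ∈ C := by rw [hs 13]; exact Iff.rfl
  have e12 : ((12 : ZMod 15) ∈ C) ↔ (3 : ZMod 15) ∈ C := by rw [hs 12]; exact Iff.rfl
  have e11 : ((11 : ZMod 15) ∈ C) ↔ (4 : ZMod 15) ∈ C := by rw [hs 11]; exact Iff.rfl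
  have e10 : ((10 : ZMod 15) ∈ C) ↔ (5 : ZMod 15) ∈ C := by rw [hs 10]; exact Iff.rfl
  have e9 : ((9 : ZMod 15) ∈ C) ↔ (6 : ZMod 15) ∈ C := by rw [hs 9]; exact Iff.rfl
  have e8 : ((8 : ZMod 15) ∈ C) ↔ (7 : ZMod 15) ∈ C := by rw [hs 8]; exact Iff.rfl
  refine ⟨k, fun d => ?_⟩
  have hd := hk d
  change (row0 k.1).testBit d.1 = true ↔ d ∈ C
  rw [hd]
  change Fin 15 at d
  fin_cases d
  · simp only [sel]; exact ⟨fun h => absurd h (by simp), fun h => absurd h h0⟩
  · exact decide_eq_true_iff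
  · exact decide_eq_true_iff
  · exact decide_eq_true_iff
  · exact decide_eq_true_iff
  · exact decide_eq_true_iff
  · exact decide_eq_true_iff
  · exact decide_eq_true_iff
  · exact decide_eq_true_iff.trans e8.symm
  · exact decide_eq_true_iff.trans e9.symm
  · exact decide_eq_true_iff.trans e10.symm
  · exact decide_eq_true_iff.trans e11.symm
  · exact decide_eq_true_iff.trans e12.symm
  · exact decide_eq_true_iff.trans e13.symm
  · exact decide_eq_true_iff.trans e14.symm

theorem val_sub (v w : ZMod 15) : (w - v).val = (w.val + 15 - v.val) % 15 := by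
  revert v w; decide +kernel

/-- from monophonic paths to bit-level induced paths -/
theorem indL_of_path (C : Set (ZMod 15)) (hC : ∀ c ∈ C, -c ∈ C) (h0 : (0 : ZMod 15) ∉ C)
    (m : ℕ) (hm : ∀ v w : ZMod 15, (rot m v.val).testBit w.val = true ↔ w - v ∈ C) :
    ∀ l : List (ZMod 15), IsMonophonicPath (circulant 15 C hC h0) l →
      IndL m (l.map ZMod.val) := by
  intro l
  induction l with
  | nil => intro _; trivial
  | cons x t ih =>
    intro ⟨hnd, hch, hind⟩
    cases t with
    | nil => trivial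
    | cons y t =>
      have ht : IsMonophonicPath (circulant 15 C hC h0) (y :: t) := by
        refine ⟨(List.nodup_cons.1 hnd).2, (List.isChain_cons_cons.1 hch).2, ?_⟩
        intro i j hi hj hij
        exact hind (i + 1) (j + 1) (by simpa using hi) (by simpa using hj) (by omega)
      have h1 := ih ht
      refine ⟨(hm x y).2 (List.isChain_cons_cons.1 hch).1, ?_, h1⟩
      intro z hz
      obtain ⟨z', hz', rfl⟩ := List.mem_map.1 hz
      obtain ⟨k, hk, rfl⟩ := List.getElem_of_mem hz'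
      have h2 := hind 0 (k + 2) (by simp) (by simpa using hk) (by omega)
      have h3 : ¬ (t[k] - x ∈ C) := h2
      rw [Bool.eq_false_iff]
      intro h4
      exact h3 ((hm _ _).1 h4)

theorem no_path (C : Set (ZMod 15)) (hC : ∀ c ∈ C, -c ∈ C) (h0 : (0 : ZMod 15) ∉ C)
    (m b c : ℕ) (hb : b < 15) (hc : c < 15)
    (hm : ∀ v w : ZMod 15, (rot m v.val).testBit w.val = true ↔ w - v ∈ C)
    (h : trip m b c = true) (l : List (ZMod 15))
    (hl : IsMonophonicPath (circulant 15 C hC h0) l) :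
    ¬ ((0 : ZMod 15) ∈ l ∧ (b : ZMod 15) ∈ l ∧ (c : ZMod 15) ∈ l) := by
  rintro ⟨m0, mb, mc⟩
  refine trip_sound m b c h (l.map ZMod.val) (indL_of_path C hC h0 m hm l hl)
    (hl.1.map (ZMod.val_injective 15)) ?_ ⟨?_, ?_, ?_⟩
  · intro z hz
    obtain ⟨z', _, rfl⟩ := List.mem_map.1 hz
    exact ZMod.val_lt z'
  · exact List.mem_map.2 ⟨0, m0, rfl⟩
  · exact List.mem_map.2 ⟨_, mb, ZMod.val_cast_of_lt hb⟩
  · exact List.mem_map.2 ⟨_, mc, ZMod.val_cast_of_lt hc⟩

theorem three_le_mp {V : Type} [Fintype V] (G : SimpleGraph V) (S : Finset V)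
    (hS : S.card = 3) (h : IsMonophonicPositionSet G S) : 3 ≤ mp G := by
  refine le_csSup ⟨Fintype.card V, ?_⟩ ⟨S, hS, h⟩
  rintro k ⟨T, rfl, _⟩
  exact Finset.card_le_univ T

theorem far_absurd {V : Type} (G : SimpleGraph V) (hconn : G.Connected) (hdiam : G.diam = 2)
    (u v : V) (hne : u ≠ v) (hnadj : ¬ G.Adj u v) (hncom : ∀ w, ¬ (G.Adj u w ∧ G.Adj w v)) :
    False := by
  have htop : G.ediam ≠ ⊤ := by
    intro h
    rw [SimpleGraph.diam, h] at hdiam
    simp at hdiam
  have hd : G.dist u v ≤ 2 := by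
    rw [← hdiam]; exact SimpleGraph.dist_le_diam htop
  obtain ⟨p, hp⟩ := hconn.exists_walk_length_eq_dist u v
  rw [← hp] at hd
  cases p with
  | nil => exact hne rfl
  | cons h1 q =>
    cases q with
    | nil => exact hnadj h1
    | cons h2 r =>
      cases r with
      | nil => exact hncom _ ⟨h1, h2⟩
      | cons h3 r => simp at hd

theorem order_fifteen (C : Set (ZMod 15)) (hC : ∀ c ∈ C, -c ∈ C) (h0 : (0 : ZMod 15) ∉ C) :
    ¬ (mp (circulant 15 C hC h0) = 2 ∧ (circulant 15 C hC h0).Connected ∧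
      (circulant 15 C hC h0).diam = 2) := by
  rintro ⟨hmp, hconn, hdiam⟩
  obtain ⟨k, hk⟩ := exists_code C hC h0
  have hm : ∀ v w : ZMod 15, (rot (row0 k.1) v.val).testBit w.val = true ↔ w - v ∈ C := by
    intro v w
    have h1 := rot_row0 k v w
    change (rot (row0 k.1) v.val).testBit w.val = (row0 k.1).testBit ((w.val + 15 - v.val) % 15)
      at h1
    rw [h1, ← val_sub, hk]
  have hch := check_all k
  simp only [check] at hch
  split_ifs at hch with hz
  · -- far vertex
    set b := (cert.getD k.1 (0, 0)).1 with hbdef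
    simp only [far, Bool.and_eq_true, decide_eq_true_eq, beq_iff_eq] at hch
    obtain ⟨⟨⟨hb0, hb15⟩, hb1⟩, hb2⟩ := hch
    have hval : ((b : ℕ) : ZMod 15).val = b := ZMod.val_cast_of_lt hb15
    have hne : ((b : ℕ) : ZMod 15) ≠ 0 := by
      intro h
      have := congrArg ZMod.val h
      rw [hval, ZMod.val_zero] at this
      omega
    have hnadj : ¬ (circulant 15 C hC h0).Adj 0 (b : ZMod 15) := by
      intro h
      have h' : ((b : ℕ) : ZMod 15) - 0 ∈ C := h
      rw [sub_zero, ← hk, hval] at h'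
      simp [h'] at hb1
    have hncom : ∀ w : ZMod 15, ¬ ((circulant 15 C hC h0).Adj 0 w ∧
        (circulant 15 C hC h0).Adj w (b : ZMod 15)) := by
      rintro w ⟨h1, h2⟩
      have h2' := h2.symm
      have h1' : w - 0 ∈ C := h1
      have h3 : w - ((b : ℕ) : ZMod 15) ∈ C := h2'
      rw [sub_zero, ← hk] at h1'
      rw [← hm, hval] at h3
      have : (row0 k.1 &&& rot (row0 k.1) b).testBit w.val = true := by
        rw [Nat.testBit_and, h1', h3]; rfl
      rw [hb2] at this
      simp at this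
    exact far_absurd _ hconn hdiam _ _ hne.symm hnadj hncom
  · set b := (cert.getD k.1 (0, 0)).1 with hbdef
    set c := (cert.getD k.1 (0, 0)).2 with hcdef
    have hch' := hch
    simp only [trip, Bool.and_eq_true, decide_eq_true_eq] at hch'
    obtain ⟨⟨⟨⟨⟨hb0, hbc⟩, hc⟩, _⟩, _⟩, _⟩ := hch'
    have hb : b < 15 := by omega
    have hvb : ((b : ℕ) : ZMod 15).val = b := ZMod.val_cast_of_lt hb
    have hvc : ((c : ℕ) : ZMod 15).val = c := ZMod.val_cast_of_lt hc
    have n1 : (0 : ZMod 15) ≠ (b : ZMod 15) := by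
      intro h
      have := congrArg ZMod.val h
      rw [hvb, ZMod.val_zero] at this
      omega
    have n2 : (0 : ZMod 15) ≠ (c : ZMod 15) := by
      intro h
      have := congrArg ZMod.val h
      rw [hvc, ZMod.val_zero] at this
      omega
    have n3 : (b : ZMod 15) ≠ (c : ZMod 15) := by
      intro h
      have := congrArg ZMod.val h
      rw [hvb, hvc] at this
      omega
    have hno := no_path C hC h0 (row0 k.1) b c hb hc hm hch
    have h3 : 3 ≤ mp (circulant 15 C hC h0) := by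
      refine three_le_mp _ {0, (b : ZMod 15), (c : ZMod 15)} (Finset.card_eq_three.2
        ⟨_, _, _, n1, n2, n3, rfl⟩) ?_
      intro x hx y hy z hz' hxy hyz hxz
      rintro ⟨l, hl, lx, ly, lz⟩
      refine hno l hl ?_
      simp only [Finset.mem_insert, Finset.mem_singleton] at hx hy hz'
      rcases hx with rfl | rfl | rfl <;> rcases hy with rfl | rfl | rfl <;>
        first
        | exact (hxy rfl).elim
        | (rcases hz' with rfl | rfl | rfl <;>
            first
            | exact (hxz rfl).elim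
            | exact (hyz rfl).elim
            | exact ⟨lx, ly, lz⟩
            | exact ⟨lx, lz, ly⟩
            | exact ⟨ly, lx, lz⟩
            | exact ⟨lz, lx, ly⟩
            | exact ⟨ly, lz, lx⟩
            | exact ⟨lz, ly, lx⟩)
    omega

/-- No circulant graph of order 15 has monophonic position number 2 and diameter 2; hence it is
not true that for every `n ≥ 11` there is a circulant graph of order `n` with monophonic
position number 2 and diameter 2. -/
theorem result :
    (∀ (C : Set (ZMod 15)) (hC : ∀ c ∈ C, -c ∈ C) (h0 : (0 : ZMod 15) ∉ C),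
      ¬ (mp (circulant 15 C hC h0) = 2 ∧ (circulant 15 C hC h0).Connected ∧
        (circulant 15 C hC h0).diam = 2)) ∧
    ¬ (∀ n : ℕ, 11 ≤ n → ∃ (C : Set (ZMod n)) (hC : ∀ c ∈ C, -c ∈ C) (h0 : (0 : ZMod n) ∉ C),
      mp (circulant n C hC h0) = 2 ∧ (circulant n C hC h0).Connected ∧
        (circulant n C hC h0).diam = 2) := by
  refine ⟨order_fifteen, fun h => ?_⟩
  obtain ⟨C, hC, h0, h1⟩ := h 15 (by norm_num)
  exact order_fifteen C hC h0 h1

end Pool.Agent.Results.MP_1f00fa_co.OrderFifteen
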